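import Pool.Agent.Arr.Defs

/-!
# The common tangents of small circles
-/

open scoped LinearAlgebra.Projectivization
open Matrix Set

namespace Pool.Agent.Arr

namespace Circ

/-- the sign of a truth value -/
def sg (b : Bool) : ℝ := if b then 1 else -1

theorem sg_mul (b : Bool) : sg b * sg b = 1 := by cases b <;> simp [sg]

theorem sg_cases (b : Bool) : sg b = 1 ∨ sg b = -1 := by cases b <;> simp [sg]

theorem sg_inj {a b : Bool} (h : sg a = sg b) : a = b := by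
  revert h
  cases a <;> cases b <;> simp [sg] <;> norm_num

theorem exists_normal (d1 d2 a : ℝ) (h : a ^ 2 < d1 ^ 2 + d2 ^ 2) :
    ∃ n : ℝ × ℝ, n.1 ^ 2 + n.2 ^ 2 = 1 ∧ n.1 * d1 + n.2 * d2 = a ∧
      0 < n.2 * d1 - n.1 * d2 := by
  have hDpos : 0 < d1 ^ 2 + d2 ^ 2 := lt_of_le_of_lt (sq_nonneg a) h
  obtain ⟨w, hwpos, hw2⟩ : ∃ w : ℝ, 0 < w ∧ w ^ 2 = d1 ^ 2 + d2 ^ 2 - a ^ 2 :=
    ⟨Real.sqrt (d1 ^ 2 + d2 ^ 2 - a ^ 2), Real.sqrt_pos.mpr (by linarith),
      Real.sq_sqrt (by linarith)⟩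
  have hD := hDpos.ne'
  refine ⟨((a * d1 - w * d2) / (d1 ^ 2 + d2 ^ 2), (a * d2 + w * d1) / (d1 ^ 2 + d2 ^ 2)),
    ?_, ?_, ?_⟩
  · have : (a * d1 - w * d2) ^ 2 + (a * d2 + w * d1) ^ 2 = (d1 ^ 2 + d2 ^ 2) ^ 2 := by
      have : (a * d1 - w * d2) ^ 2 + (a * d2 + w * d1) ^ 2 =
        (a ^ 2 + w ^ 2) * (d1 ^ 2 + d2 ^ 2) := by ring
      rw [this, hw2]; ring
    simp only [div_pow]
    rw [← add_div, this]
    field_simp
  · simp only
    field_simp
    ring
  · have : (a * d2 + w * d1) / (d1 ^ 2 + d2 ^ 2) * d1 - (a * d1 - w * d2) / (d1 ^ 2 + d2 ^ 2) * d2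
        = w := by
      field_simp
      ring
    simp only
    rw [this]
    exact hwpos

/-- the radius -/
noncomputable def rad (k : ℕ) : ℝ := 1 / (8 * ((k : ℝ) + 1) ^ 2)

theorem rad_pos (k : ℕ) : 0 < rad k := by unfold rad; positivity

theorem rad_mul (k : ℕ) : rad k * (8 * ((k : ℝ) + 1) ^ 2) = 1 := by
  unfold rad
  have : (8 * ((k : ℝ) + 1) ^ 2) ≠ 0 := by positivity
  field_simp

theorem key (k : ℕ) {n1 n2 : ℝ} (hn : n1 ^ 2 + n2 ^ 2 = 1) {q l m : ℕ} (hq : q < k) (hl : l < k)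
    (hm : m < k) (hql : q ≠ l) (hqm : q ≠ m) (hlm : l ≠ m)
    (h1 : |n1 * ((l : ℝ) - q) + n2 * ((l : ℝ) ^ 2 - (q : ℝ) ^ 2)| ≤ 2 * rad k)
    (h2 : |n1 * ((m : ℝ) - q) + n2 * ((m : ℝ) ^ 2 - (q : ℝ) ^ 2)| ≤ 2 * rad k) : False := by
  have hr := rad_pos k
  have hrk := rad_mul k
  have hn1 : |n1| ≤ 1 := abs_le_one_iff_mul_self_le_one.mpr (by nlinarith [sq_nonneg n2])
  have hn2 : |n2| ≤ 1 := abs_le_one_iff_mul_self_le_one.mpr (by nlinarith [sq_nonneg n1])
  have hqk : (q : ℝ) ≤ k := by exact_mod_cast hq.le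
  have hlk : (l : ℝ) ≤ k := by exact_mod_cast hl.le
  have hmk : (m : ℝ) ≤ k := by exact_mod_cast hm.le
  have hq0 : (0 : ℝ) ≤ q := Nat.cast_nonneg q
  have hl0 : (0 : ℝ) ≤ l := Nat.cast_nonneg l
  have hm0 : (0 : ℝ) ≤ m := Nat.cast_nonneg m
  have hk0 : (0 : ℝ) ≤ k := Nat.cast_nonneg k
  have bound : ∀ z : ℝ, 0 ≤ z → z ≤ k →
      |n1 * (z ^ 2 - (q : ℝ) ^ 2) - n2 * (z - q)| ≤ ((k : ℝ) + 1) ^ 2 := by
    intro z hz hzk
    have e1 : |z ^ 2 - (q : ℝ) ^ 2| ≤ (k : ℝ) ^ 2 := by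
      rw [abs_le]; constructor <;> nlinarith
    have e2 : |z - (q : ℝ)| ≤ (k : ℝ) := by
      rw [abs_le]; constructor <;> linarith
    calc |n1 * (z ^ 2 - (q : ℝ) ^ 2) - n2 * (z - q)|
        ≤ |n1 * (z ^ 2 - (q : ℝ) ^ 2)| + |n2 * (z - q)| := abs_sub _ _
      _ = |n1| * |z ^ 2 - (q : ℝ) ^ 2| + |n2| * |z - q| := by rw [abs_mul, abs_mul]
      _ ≤ 1 * (k : ℝ) ^ 2 + 1 * (k : ℝ) := by
          gcongr
      _ ≤ ((k : ℝ) + 1) ^ 2 := by nlinarith
  have b1 := bound l hl0 hlk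
  have b2 := bound m hm0 hmk
  set A := n1 * ((l : ℝ) - q) + n2 * ((l : ℝ) ^ 2 - (q : ℝ) ^ 2) with hA
  set B := n1 * ((m : ℝ) - q) + n2 * ((m : ℝ) ^ 2 - (q : ℝ) ^ 2) with hB
  set A' := n1 * ((l : ℝ) ^ 2 - (q : ℝ) ^ 2) - n2 * ((l : ℝ) - q) with hA'
  set B' := n1 * ((m : ℝ) ^ 2 - (q : ℝ) ^ 2) - n2 * ((m : ℝ) - q) with hB'
  have hdet : A * B' - A' * B = ((l : ℝ) - q) * ((m : ℝ) - q) * ((m : ℝ) - l) := by
    have : A * B' - A' * B =
        (n1 ^ 2 + n2 ^ 2) * (((l : ℝ) - q) * ((m : ℝ) - q) * ((m : ℝ) - l)) := by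
      rw [hA, hB, hA', hB']; ring
    rw [this, hn, one_mul]
  have hlow : (1 : ℝ) ≤ |((l : ℝ) - q) * ((m : ℝ) - q) * ((m : ℝ) - l)| := by
    have hz : (((l : ℤ) - q) * ((m : ℤ) - q) * ((m : ℤ) - l)) ≠ 0 := by
      refine mul_ne_zero (mul_ne_zero ?_ ?_) ?_
      · rw [sub_ne_zero]; exact_mod_cast hql.symm
      · rw [sub_ne_zero]; exact_mod_cast hqm.symm
      · rw [sub_ne_zero]; exact_mod_cast hlm.symm
    have h1 : (1 : ℤ) ≤ |(((l : ℤ) - q) * ((m : ℤ) - q) * ((m : ℤ) - l))| :=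
      Int.one_le_abs hz
    have h2 : ((1 : ℤ) : ℝ) ≤ ((|(((l : ℤ) - q) * ((m : ℤ) - q) * ((m : ℤ) - l))| : ℤ) : ℝ) := by
      exact_mod_cast h1
    simpa using h2
  have hup : |A * B' - A' * B| ≤ 2 * rad k * ((k : ℝ) + 1) ^ 2 + ((k : ℝ) + 1) ^ 2 * (2 * rad k) :=
    calc |A * B' - A' * B| ≤ |A * B'| + |A' * B| := abs_sub _ _
      _ = |A| * |B'| + |A'| * |B| := by rw [abs_mul, abs_mul]
      _ ≤ 2 * rad k * ((k : ℝ) + 1) ^ 2 + ((k : ℝ) + 1) ^ 2 * (2 * rad k) := by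
          gcongr
  rw [hdet] at hup
  have := hlow.trans hup
  nlinarith

/-- the index type -/
abbrev E (k : ℕ) : Type := Σ j : Fin k, Fin j.val × Bool × Bool

theorem card_E (k : ℕ) : Fintype.card (E k) = 2 * k * (k - 1) := by
  simp only [Fintype.card_sigma, Fintype.card_prod, Fintype.card_fin, Fintype.card_bool]
  rw [← Finset.sum_mul, Fin.sum_univ_eq_sum_range (fun i => i) k]
  have := Finset.sum_range_id_mul_two k
  nlinarith

/-- first index -/
def fs {k : ℕ} (e : E k) : ℕ := e.2.1.val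
/-- second index -/
def sn {k : ℕ} (e : E k) : ℕ := e.1.val
/-- first sign -/
def s1 {k : ℕ} (e : E k) : Bool := e.2.2.1
/-- second sign -/
def s2 {k : ℕ} (e : E k) : Bool := e.2.2.2

theorem fs_lt_sn {k : ℕ} (e : E k) : fs e < sn e := e.2.1.isLt

theorem sn_lt {k : ℕ} (e : E k) : sn e < k := e.1.isLt

theorem fs_lt {k : ℕ} (e : E k) : fs e < k := (fs_lt_sn e).trans (sn_lt e)

theorem E_ext {k : ℕ} {e f : E k} (h1 : fs e = fs f) (h2 : sn e = sn f) (h3 : s1 e = s1 f)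
    (h4 : s2 e = s2 f) : e = f := by
  obtain ⟨⟨j, hj⟩, ⟨i, hi⟩, s, t⟩ := e
  obtain ⟨⟨j', hj'⟩, ⟨i', hi'⟩, s', t'⟩ := f
  simp only [fs, sn, s1, s2] at h1 h2 h3 h4
  subst h1 h2 h3 h4
  rfl

/-- build an index -/
def mkE {k : ℕ} (i j : ℕ) (hij : i < j) (hj : j < k) (s t : Bool) : E k :=
  ⟨⟨j, hj⟩, ⟨i, hij⟩, s, t⟩

theorem exists_n {k : ℕ} (e : E k) : ∃ n : ℝ × ℝ, n.1 ^ 2 + n.2 ^ 2 = 1 ∧
    n.1 * ((sn e : ℝ) - fs e) + n.2 * ((sn e : ℝ) ^ 2 - (fs e : ℝ) ^ 2) =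
      (sg (s1 e) - sg (s2 e)) * rad k ∧
    0 < n.2 * ((sn e : ℝ) - fs e) - n.1 * ((sn e : ℝ) ^ 2 - (fs e : ℝ) ^ 2) := by
  apply exists_normal
  have h1 : (fs e : ℝ) + 1 ≤ sn e := by exact_mod_cast fs_lt_sn e
  have hr := rad_pos k
  have hr2 : rad k ≤ 1 / 8 := by
    have := rad_mul k
    have hk0 : (0 : ℝ) ≤ k := Nat.cast_nonneg k
    nlinarith [mul_nonneg hr.le hk0, mul_nonneg hr.le (mul_nonneg hk0 hk0)]
  have h2 : ((sg (s1 e) - sg (s2 e)) * rad k) ^ 2 ≤ 1 / 16 := by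
    rcases sg_cases (s1 e) with h | h <;> rcases sg_cases (s2 e) with h' | h' <;> rw [h, h'] <;>
      nlinarith
  have h3 : 1 ≤ ((sn e : ℝ) - fs e) ^ 2 := by nlinarith
  nlinarith [sq_nonneg ((sn e : ℝ) ^ 2 - (fs e : ℝ) ^ 2)]

/-- the normal vector -/
noncomputable def nor {k : ℕ} (e : E k) : ℝ × ℝ := (exists_n e).choose

theorem nor_unit {k : ℕ} (e : E k) : (nor e).1 ^ 2 + (nor e).2 ^ 2 = 1 :=
  (exists_n e).choose_spec.1

theorem nor_d {k : ℕ} (e : E k) :
    (nor e).1 * ((sn e : ℝ) - fs e) + (nor e).2 * ((sn e : ℝ) ^ 2 - (fs e : ℝ) ^ 2) =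
      (sg (s1 e) - sg (s2 e)) * rad k := (exists_n e).choose_spec.2.1

theorem nor_perp {k : ℕ} (e : E k) :
    0 < (nor e).2 * ((sn e : ℝ) - fs e) - (nor e).1 * ((sn e : ℝ) ^ 2 - (fs e : ℝ) ^ 2) :=
  (exists_n e).choose_spec.2.2

/-- the linear form of the tangent -/
noncomputable def bb {k : ℕ} (e : E k) : V3 :=
  ![(nor e).1, (nor e).2, -((nor e).1 * fs e + (nor e).2 * (fs e : ℝ) ^ 2 + sg (s1 e) * rad k)]

/-- the centres -/
noncomputable def cc (q : ℕ) : V3 := ![(q : ℝ), (q : ℝ) ^ 2, 1]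

theorem bb_dot {k : ℕ} (e : E k) (y : V3) : bb e ⬝ᵥ y = (nor e).1 * y 0 + (nor e).2 * y 1 -
    ((nor e).1 * fs e + (nor e).2 * (fs e : ℝ) ^ 2 + sg (s1 e) * rad k) * y 2 := by
  simp [bb, dotProduct, Fin.sum_univ_three]
  ring

theorem bb_cc {k : ℕ} (e : E k) (q : ℕ) : bb e ⬝ᵥ cc q =
    (nor e).1 * ((q : ℝ) - fs e) + (nor e).2 * ((q : ℝ) ^ 2 - (fs e : ℝ) ^ 2) -
      sg (s1 e) * rad k := by
  rw [bb_dot]
  simp [cc]
  ring

theorem bb_fs {k : ℕ} (e : E k) : bb e ⬝ᵥ cc (fs e) = - (sg (s1 e) * rad k) := by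
  rw [bb_cc]; ring

theorem bb_sn {k : ℕ} (e : E k) : bb e ⬝ᵥ cc (sn e) = - (sg (s2 e) * rad k) := by
  rw [bb_cc, nor_d]; ring

/-- the tangent `e` touches the circle `q` with sign `σ`; `l` is the other circle -/
def Tan {k : ℕ} (e : E k) (q l : ℕ) (σ : Bool) : Prop :=
  (q = fs e ∧ l = sn e ∧ σ = s1 e) ∨ (q = sn e ∧ l = fs e ∧ σ = s2 e)

theorem Tan.val {k : ℕ} {e : E k} {q l : ℕ} {σ : Bool} (h : Tan e q l σ) :
    bb e ⬝ᵥ cc q = - (sg σ * rad k) := by
  rcases h with ⟨rfl, -, rfl⟩ | ⟨rfl, -, rfl⟩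
  · exact bb_fs e
  · exact bb_sn e

theorem Tan.ne {k : ℕ} {e : E k} {q l : ℕ} {σ : Bool} (h : Tan e q l σ) : q ≠ l := by
  have := fs_lt_sn e
  rcases h with ⟨rfl, rfl, -⟩ | ⟨rfl, rfl, -⟩ <;> omega

theorem Tan.lt {k : ℕ} {e : E k} {q l : ℕ} {σ : Bool} (h : Tan e q l σ) : q < k ∧ l < k := by
  have := fs_lt_sn e
  have := sn_lt e
  rcases h with ⟨rfl, rfl, -⟩ | ⟨rfl, rfl, -⟩ <;> omega

theorem Tan.small {k : ℕ} {e : E k} {q l : ℕ} {σ : Bool} (h : Tan e q l σ) :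
    |(nor e).1 * ((l : ℝ) - q) + (nor e).2 * ((l : ℝ) ^ 2 - (q : ℝ) ^ 2)| ≤ 2 * rad k := by
  have hr := rad_pos k
  have hd := nor_d e
  have hs : |(sg (s1 e) - sg (s2 e)) * rad k| ≤ 2 * rad k := by
    rw [abs_le]
    rcases sg_cases (s1 e) with h | h <;> rcases sg_cases (s2 e) with h' | h' <;> rw [h, h'] <;>
      constructor <;> linarith
  rcases h with ⟨rfl, rfl, -⟩ | ⟨rfl, rfl, -⟩
  · rw [hd]; exact hs
  · have : (nor e).1 * ((fs e : ℝ) - sn e) + (nor e).2 * ((fs e : ℝ) ^ 2 - (sn e : ℝ) ^ 2) =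
        - ((sg (s1 e) - sg (s2 e)) * rad k) := by rw [← hd]; ring
    rw [this, abs_neg]; exact hs

/-- a circle which is not touched is far away -/
theorem far {k : ℕ} (e : E k) {l : ℕ} (hl : l < k) (h1 : l ≠ fs e) (h2 : l ≠ sn e) :
    rad k < |bb e ⬝ᵥ cc l| := by
  by_contra hcon
  rw [not_lt, bb_cc, abs_le] at hcon
  have hr := rad_pos k
  have hT : Tan e (fs e) (sn e) (s1 e) := Or.inl ⟨rfl, rfl, rfl⟩
  refine key k (nor_unit e) (fs_lt e) (sn_lt e) hl (fs_lt_sn e).ne h1.symm h2.symm hT.small ?_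
  rw [abs_le]
  rcases sg_cases (s1 e) with h | h <;> rw [h] at hcon <;> constructor <;> linarith [hcon.1, hcon.2]

/-- different tangents of a circle have different outer normals -/
theorem normals_lt {k : ℕ} {e f : E k} (hef : f ≠ e) {q l m : ℕ} {σ τ : Bool} (he : Tan e q l σ)
    (hf : Tan f q m τ) :
    sg τ * sg σ * ((nor f).1 * (nor e).1 + (nor f).2 * (nor e).2) < 1 := by
  by_contra hcon
  rw [not_lt] at hcon
  have hs := sg_mul σ
  have ht := sg_mul τ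
  have hue := nor_unit e
  have huf := nor_unit f
  have hsq : (sg τ * (nor f).1 - sg σ * (nor e).1) ^ 2 + (sg τ * (nor f).2 - sg σ * (nor e).2) ^ 2
      ≤ 0 := by
    have : (sg τ * (nor f).1 - sg σ * (nor e).1) ^ 2 + (sg τ * (nor f).2 - sg σ * (nor e).2) ^ 2 =
        (sg τ * sg τ) * ((nor f).1 ^ 2 + (nor f).2 ^ 2) +
        (sg σ * sg σ) * ((nor e).1 ^ 2 + (nor e).2 ^ 2) -
        2 * (sg τ * sg σ * ((nor f).1 * (nor e).1 + (nor f).2 * (nor e).2)) := by ring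
    rw [this, hs, ht, hue, huf]
    linarith
  have e1 : sg τ * (nor f).1 = sg σ * (nor e).1 := by
    have h0 : (sg τ * (nor f).1 - sg σ * (nor e).1) ^ 2 = 0 :=
      le_antisymm (by nlinarith [sq_nonneg (sg τ * (nor f).2 - sg σ * (nor e).2)]) (sq_nonneg _)
    exact sub_eq_zero.mp (pow_eq_zero_iff (two_ne_zero)|>.mp h0)
  have e2 : sg τ * (nor f).2 = sg σ * (nor e).2 := by
    have h0 : (sg τ * (nor f).2 - sg σ * (nor e).2) ^ 2 = 0 :=
      le_antisymm (by nlinarith [sq_nonneg (sg τ * (nor f).1 - sg σ * (nor e).1)]) (sq_nonneg _)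
    exact sub_eq_zero.mp (pow_eq_zero_iff (two_ne_zero)|>.mp h0)
  have f1 : (nor f).1 = sg τ * sg σ * (nor e).1 := by
    calc (nor f).1 = (sg τ * sg τ) * (nor f).1 := by rw [ht, one_mul]
      _ = sg τ * (sg τ * (nor f).1) := by ring
      _ = _ := by rw [e1]; ring
  have f2 : (nor f).2 = sg τ * sg σ * (nor e).2 := by
    calc (nor f).2 = (sg τ * sg τ) * (nor f).2 := by rw [ht, one_mul]
      _ = sg τ * (sg τ * (nor f).2) := by ring
      _ = _ := by rw [e2]; ring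
  have hts : sg τ * sg σ = 1 ∨ sg τ * sg σ = -1 := by
    rcases sg_cases τ with h | h <;> rcases sg_cases σ with h' | h' <;> rw [h, h'] <;> norm_num
  by_cases hlm : l = m
  · subst hlm
    -- the same pair
    have hfs : fs f = fs e ∧ sn f = sn e := by
      have := fs_lt_sn e
      have := fs_lt_sn f
      rcases he with ⟨a1, a2, -⟩ | ⟨a1, a2, -⟩ <;> rcases hf with ⟨c1, c2, -⟩ | ⟨c1, c2, -⟩ <;> omega
    have hpe := nor_perp e
    have hpf := nor_perp f
    rw [hfs.1, hfs.2, f1, f2] at hpf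
    have hone : sg τ * sg σ = 1 := by
      rcases hts with h | h
      · exact h
      · exfalso
        rw [h] at hpf
        linarith
    rw [hone, one_mul] at f1 f2
    have hστ : τ = σ := by
      apply sg_inj
      calc sg τ = sg τ * (sg σ * sg σ) := by rw [hs, mul_one]
        _ = (sg τ * sg σ) * sg σ := by ring
        _ = sg σ := by rw [hone, one_mul]
    have hde := nor_d e
    have hdf := nor_d f
    rw [hfs.1, hfs.2, f1, f2, hde] at hdf
    have hr := (rad_pos k).ne'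
    have hsub := mul_right_cancel₀ hr hdf
    apply hef
    have := fs_lt_sn e
    rcases he with ⟨a1, a2, a3⟩ | ⟨a1, a2, a3⟩ <;> rcases hf with ⟨c1, c2, c3⟩ | ⟨c1, c2, c3⟩
    · have h1 : s1 f = s1 e := by rw [← c3, ← a3, hστ]
      rw [h1] at hsub
      have h2 : s2 f = s2 e := sg_inj (by linarith)
      exact E_ext hfs.1 hfs.2 h1 h2
    · omega
    · omega
    · have h1 : s2 f = s2 e := by rw [← c3, ← a3, hστ]
      rw [h1] at hsub
      have h2 : s1 f = s1 e := sg_inj (by linarith)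
      exact E_ext hfs.1 hfs.2 h2 h1
  · refine key k hue he.lt.1 he.lt.2 hf.lt.2 he.ne hf.ne hlm he.small ?_
    have := hf.small
    rw [f1, f2] at this
    rcases hts with h | h
    · rw [h] at this
      simpa using this
    · rw [h] at this
      have e3 : -1 * (nor e).1 * ((m : ℝ) - q) + -1 * (nor e).2 * ((m : ℝ) ^ 2 - (q : ℝ) ^ 2) =
          -((nor e).1 * ((m : ℝ) - q) + (nor e).2 * ((m : ℝ) ^ 2 - (q : ℝ) ^ 2)) := by ring
      rw [e3, abs_neg] at this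
      exact this

theorem inner_le {k : ℕ} (e f : E k) :
    |(nor f).1 * (nor e).1 + (nor f).2 * (nor e).2| ≤ 1 := by
  have hue := nor_unit e
  have huf := nor_unit f
  rw [abs_le]
  constructor
  · nlinarith [sq_nonneg ((nor f).1 + (nor e).1), sq_nonneg ((nor f).2 + (nor e).2)]
  · nlinarith [sq_nonneg ((nor f).1 - (nor e).1), sq_nonneg ((nor f).2 - (nor e).2)]

/-- a tangent of the circle `q` is a side of its cell -/
theorem side_of_tan {k : ℕ} {e : E k} {q l : ℕ} {σ : Bool} (he : Tan e q l σ) :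
    Side (bb (k := k)) (cc q) e := by
  have hr := rad_pos k
  have hs := sg_mul σ
  refine ⟨![(q : ℝ) + rad k * (sg σ * (nor e).1), (q : ℝ) ^ 2 + rad k * (sg σ * (nor e).2), 1],
    ?_, ?_⟩
  · have hv := he.val
    rw [bb_cc] at hv
    rw [bb_dot]
    simp only [Matrix.cons_val_zero, Matrix.cons_val_one, Matrix.cons_val]
    have hu := nor_unit e
    have : (nor e).1 * ((q : ℝ) + rad k * (sg σ * (nor e).1)) +
        (nor e).2 * ((q : ℝ) ^ 2 + rad k * (sg σ * (nor e).2)) -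
        ((nor e).1 * fs e + (nor e).2 * (fs e : ℝ) ^ 2 + sg (s1 e) * rad k) * 1 =
        ((nor e).1 * ((q : ℝ) - fs e) + (nor e).2 * ((q : ℝ) ^ 2 - (fs e : ℝ) ^ 2) -
      sg (s1 e) * rad k) + rad k * sg σ * ((nor e).1 ^ 2 + (nor e).2 ^ 2) := by ring
    rw [this, hv, hu]
    ring
  · intro f hfe
    have hval : bb f ⬝ᵥ ![(q : ℝ) + rad k * (sg σ * (nor e).1),
        (q : ℝ) ^ 2 + rad k * (sg σ * (nor e).2), 1] =
        bb f ⬝ᵥ cc q + rad k * sg σ * ((nor f).1 * (nor e).1 + (nor f).2 * (nor e).2) := by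
      rw [bb_dot, bb_cc]
      simp only [Matrix.cons_val_zero, Matrix.cons_val_one, Matrix.cons_val]
      ring
    rw [hval]
    by_cases hq1 : q = fs f
    · have hf : Tan f q (sn f) (s1 f) := Or.inl ⟨hq1, rfl, rfl⟩
      have hlt := normals_lt hfe he hf
      rw [hf.val]
      have ht := sg_mul (s1 f)
      have : -(sg (s1 f) * rad k) * (-(sg (s1 f) * rad k) + rad k * sg σ *
          ((nor f).1 * (nor e).1 + (nor f).2 * (nor e).2)) =
          rad k ^ 2 * ((sg (s1 f) * sg (s1 f)) - sg (s1 f) * sg σ *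
          ((nor f).1 * (nor e).1 + (nor f).2 * (nor e).2)) := by ring
      rw [this, ht]
      have h1 : 0 < 1 - sg (s1 f) * sg σ *
          ((nor f).1 * (nor e).1 + (nor f).2 * (nor e).2) := by linarith
      positivity
    · by_cases hq2 : q = sn f
      · have hf : Tan f q (fs f) (s2 f) := Or.inr ⟨hq2, rfl, rfl⟩
        have hlt := normals_lt hfe he hf
        rw [hf.val]
        have ht := sg_mul (s2 f)
        have : -(sg (s2 f) * rad k) * (-(sg (s2 f) * rad k) + rad k * sg σ *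
            ((nor f).1 * (nor e).1 + (nor f).2 * (nor e).2)) =
            rad k ^ 2 * ((sg (s2 f) * sg (s2 f)) - sg (s2 f) * sg σ *
            ((nor f).1 * (nor e).1 + (nor f).2 * (nor e).2)) := by ring
        rw [this, ht]
        have h1 : 0 < 1 - sg (s2 f) * sg σ *
            ((nor f).1 * (nor e).1 + (nor f).2 * (nor e).2) := by linarith
        positivity
      · have hfar := far f he.lt.1 hq1 hq2
        have hin := abs_le.mp (inner_le e f)
        set w := (nor f).1 * (nor e).1 + (nor f).2 * (nor e).2 with hw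
        set g := bb f ⬝ᵥ cc q with hg
        have hbd : |rad k * sg σ * w| ≤ rad k := by
          rw [abs_le]
          rcases sg_cases σ with h | h <;> rw [h] <;> constructor <;> nlinarith [hin.1, hin.2]
        have hbd' := abs_le.mp hbd
        rcases lt_abs.mp hfar with h | h
        · have : 0 < g + rad k * sg σ * w := by linarith [hbd'.1]
          have : 0 < g := by linarith
          positivity
        · have h1 : g + rad k * sg σ * w < 0 := by linarith [hbd'.2]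
          have h2 : g < 0 := by linarith
          exact mul_pos_of_neg_of_neg h2 h1

/-- the tangents of the circle `q` -/
def tmap {k : ℕ} (q : Fin k) (x : {l : Fin k // l ≠ q} × Bool × Bool) : E k :=
  if h : x.1.1.val < q.val then mkE x.1.1.val q.val h q.isLt x.2.1 x.2.2
  else mkE q.val x.1.1.val
    (lt_of_le_of_ne (not_lt.mp h) (fun h' => x.1.2 (Fin.ext h'.symm))) x.1.1.isLt x.2.1 x.2.2

theorem tmap_injective {k : ℕ} (q : Fin k) : Function.Injective (tmap q) := by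
  rintro ⟨⟨l, hl⟩, s, t⟩ ⟨⟨l', hl'⟩, s', t'⟩ h
  have hlq : l.val ≠ q.val := fun h' => hl (Fin.ext h')
  have hlq' : l'.val ≠ q.val := fun h' => hl' (Fin.ext h')
  have h1 := congrArg fs h
  have h2 := congrArg sn h
  have h3 := congrArg s1 h
  have h4 := congrArg s2 h
  unfold tmap at h1 h2 h3 h4
  have key : l.val = l'.val ∧ s = s' ∧ t = t' := by
    split_ifs at h1 h2 h3 h4 <;> simp only [fs, sn, s1, s2, mkE] at h1 h2 h3 h4 <;>
      refine ⟨by omega, h3, h4⟩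
  obtain ⟨a, rfl, rfl⟩ := key
  have : l = l' := Fin.ext a
  subst this
  rfl

theorem tmap_side {k : ℕ} (q : Fin k) (x : {l : Fin k // l ≠ q} × Bool × Bool) :
    Side (bb (k := k)) (cc q.val) (tmap q x) := by
  unfold tmap
  split_ifs with h
  · exact side_of_tan (l := x.1.1.val) (σ := x.2.2) (Or.inr ⟨rfl, rfl, rfl⟩)
  · exact side_of_tan (l := x.1.1.val) (σ := x.2.1) (Or.inl ⟨rfl, rfl, rfl⟩)

theorem not_same {k : ℕ} {q r : ℕ} (hqr : q < r) (hr : r < k) :
    (∃ e : E k, 0 < (bb e ⬝ᵥ cc q) * (bb e ⬝ᵥ cc r)) ∧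
    ∃ e : E k, (bb e ⬝ᵥ cc q) * (bb e ⬝ᵥ cc r) < 0 := by
  have hrad := rad_pos k
  constructor
  · refine ⟨mkE q r hqr hr true true, ?_⟩
    have h1 := bb_fs (mkE q r hqr hr true true)
    have h2 := bb_sn (mkE q r hqr hr true true)
    simp only [fs, sn, s1, s2, mkE, sg] at h1 h2
    simp only [mkE]
    rw [h1, h2]
    simp
    positivity
  · refine ⟨mkE q r hqr hr true false, ?_⟩
    have h1 := bb_fs (mkE q r hqr hr true false)
    have h2 := bb_sn (mkE q r hqr hr true false)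
    simp only [fs, sn, s1, s2, mkE, sg] at h1 h2
    simp only [mkE]
    rw [h1, h2]
    simp
    positivity

end Circ

open Circ in
/-- the tangent lines: for `i < j` and signs `σ, τ` the tangent with the circle `i` on the side `σ`
and the circle `j` on the side `τ` -/
theorem exists_tangents (k : ℕ) : ∃ (E : Type) (_ : Fintype E) (b : E → V3) (c : Fin k → V3),
    Fintype.card E = 2 * k * (k - 1) ∧ (∀ q, Off b (c q)) ∧
    (∀ q, 4 * (k - 1) ≤ (SideSet b (c q)).card) ∧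
    ∀ q r, q ≠ r → ¬ SameSide b (c q) (c r) := by
  classical
  refine ⟨Circ.E k, inferInstance, bb, fun q => cc q.val, card_E k, ?_, ?_, ?_⟩
  · intro q e h0
    have hr := rad_pos k
    by_cases hq1 : q.val = fs e
    · have hT : Tan e q.val (sn e) (s1 e) := Or.inl ⟨hq1, rfl, rfl⟩
      have := hT.val
      rw [this] at h0
      rcases sg_cases (s1 e) with h | h <;> rw [h] at h0 <;> linarith
    · by_cases hq2 : q.val = sn e
      · have hT : Tan e q.val (fs e) (s2 e) := Or.inr ⟨hq2, rfl, rfl⟩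
        have := hT.val
        rw [this] at h0
        rcases sg_cases (s2 e) with h | h <;> rw [h] at h0 <;> linarith
      · have := far e q.isLt hq1 hq2
        rw [h0, abs_zero] at this
        linarith
  · intro q
    have h1 : Fintype.card ({l : Fin k // l ≠ q} × Bool × Bool) = 4 * (k - 1) := by
      rw [Fintype.card_prod, Fintype.card_prod, Fintype.card_bool, Fintype.card_subtype_compl]
      simp
      ring
    rw [← h1, ← Finset.card_univ, ← Finset.card_image_of_injective Finset.univ (tmap_injective q)]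
    apply Finset.card_le_card
    intro e he
    rw [Finset.mem_image] at he
    obtain ⟨x, -, rfl⟩ := he
    unfold SideSet
    rw [Finset.mem_filter]
    exact ⟨Finset.mem_univ _, tmap_side q x⟩
  · intro q r hqr hS
    rcases lt_or_gt_of_ne (fun h : q.val = r.val => hqr (Fin.ext h)) with h | h
    · obtain ⟨⟨e, he⟩, ⟨f, hf⟩⟩ := not_same h r.isLt
      rcases hS with hS | hS
      · linarith [hS f]
      · linarith [hS e]
    · obtain ⟨⟨e, he⟩, ⟨f, hf⟩⟩ := not_same h q.isLt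
      rcases hS with hS | hS
      · have := hS f
        rw [mul_comm] at this
        linarith
      · have := hS e
        rw [mul_comm] at this
        linarith

end Pool.Agent.Arr
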