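import Mathlib

/-!
# Simple line arrangements in the real projective plane

The projective plane is `ℙ ℝ (Fin 3 → ℝ)` with the quotient topology of `ℝ³ ∖ {0}`. Lines are the
zero sets of nonzero linear forms, faces are the connected components of the complement of the
union of the lines, edges are the connected components of a line minus the other lines, and the
number of sides of a face is the number of edges contained in its boundary.
-/

open scoped LinearAlgebra.Projectivization
open Matrix

namespace Pool.Agent.Arr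

/-- The real projective plane. -/
abbrev P2 : Type := ℙ ℝ (Fin 3 → ℝ)

/-- The quotient topology of the projective plane. -/
noncomputable instance instTopP2 : TopologicalSpace P2 :=
  TopologicalSpace.coinduced
    (fun v : {v : Fin 3 → ℝ // v ≠ 0} => Projectivization.mk ℝ v.1 v.2) inferInstance

/-- A line of the projective plane: the zero set of a nonzero linear form. -/
def IsLine (ℓ : Set P2) : Prop :=
  ∃ a : Fin 3 → ℝ, a ≠ 0 ∧ ℓ = {p : P2 | a ⬝ᵥ p.rep = 0}

/-- An arrangement: at least three distinct lines, not all through a common point. -/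
structure IsArrangement (A : Finset (Set P2)) : Prop where
  isLine : ∀ ℓ ∈ A, IsLine ℓ
  three_le : 3 ≤ A.card
  not_concurrent : ¬ ∃ p : P2, ∀ ℓ ∈ A, p ∈ ℓ

/-- An arrangement is simple if no three of its lines pass through a common point. -/
def IsSimple (A : Finset (Set P2)) : Prop :=
  ∀ ℓ₁ ∈ A, ∀ ℓ₂ ∈ A, ∀ ℓ₃ ∈ A, ℓ₁ ≠ ℓ₂ → ℓ₁ ≠ ℓ₃ → ℓ₂ ≠ ℓ₃ →
    ¬ ∃ p : P2, p ∈ ℓ₁ ∧ p ∈ ℓ₂ ∧ p ∈ ℓ₃

/-- The complement of the union of the lines. -/
def compl (A : Finset (Set P2)) : Set P2 := {p | ∀ ℓ ∈ A, p ∉ ℓ}

/-- The faces: the connected components of the complement of the union of the lines. -/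
def IsFace (A : Finset (Set P2)) (F : Set P2) : Prop :=
  ∃ p ∈ compl A, F = connectedComponentIn (compl A) p

/-- The points of `ℓ` on no other line of the arrangement. -/
def openPart (A : Finset (Set P2)) (ℓ : Set P2) : Set P2 := {p ∈ ℓ | ∀ ℓ' ∈ A, ℓ' ≠ ℓ → p ∉ ℓ'}

/-- The edges on the line `ℓ`: the connected components of `ℓ` minus the other lines. -/
def IsEdge (A : Finset (Set P2)) (ℓ e : Set P2) : Prop :=
  ∃ p ∈ openPart A ℓ, e = connectedComponentIn (openPart A ℓ) p

/-- The edges of the arrangement which lie in the boundary of `F`. -/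
def boundaryEdges (A : Finset (Set P2)) (F : Set P2) : Set (Set P2) :=
  {e | (∃ ℓ ∈ A, IsEdge A ℓ e) ∧ e ⊆ frontier F}

/-- The number of sides of `F`. -/
noncomputable def sides (A : Finset (Set P2)) (F : Set P2) : ℕ := (boundaryEdges A F).ncard

/-- All values of `q₁ + ⋯ + q_k - n` for `k` distinct faces of a simple arrangement of `n` lines. -/
def excessSet (k : ℕ) : Set ℤ :=
  {m | ∃ A : Finset (Set P2), IsArrangement A ∧ IsSimple A ∧ ∃ F : Fin k → Set P2,
    Function.Injective F ∧ (∀ i, IsFace A (F i)) ∧ m = (∑ i, (sides A (F i) : ℤ)) - A.card}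

/-- The constant `a(k)`. -/
noncomputable def a (k : ℕ) : ℤ := sSup (excessSet k)

/-! ## The algebraic model -/

/-- vectors of `ℝ³` -/
abbrev V3 : Type := Fin 3 → ℝ

/-- the line with normal vector `v` -/
def lineOf (v : V3) : Set P2 := {p : P2 | v ⬝ᵥ p.rep = 0}

section

variable {ι : Type} [Fintype ι]

/-- no three of the forms have a common zero -/
def Gen (b : ι → V3) : Prop :=
  ∀ i j l, i ≠ j → i ≠ l → j ≠ l → ∀ x : V3, b i ⬝ᵥ x = 0 → b j ⬝ᵥ x = 0 → b l ⬝ᵥ x = 0 → x = 0

open Classical in
/-- the arrangement of the lines with normal vectors `b i` -/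
noncomputable def arr (b : ι → V3) : Finset (Set P2) := Finset.univ.image fun i => lineOf (b i)

/-- `x` lies on none of the planes -/
def Off (b : ι → V3) (x : V3) : Prop := ∀ i, b i ⬝ᵥ x ≠ 0

/-- `x` and `y` have the same signs, up to a global sign -/
def SameSide (b : ι → V3) (x y : V3) : Prop :=
  (∀ i, 0 < (b i ⬝ᵥ x) * (b i ⬝ᵥ y)) ∨ (∀ i, (b i ⬝ᵥ x) * (b i ⬝ᵥ y) < 0)

/-- the plane of `b i` contains a side of the cone of `x` -/
def Side (b : ι → V3) (x : V3) (i : ι) : Prop :=
  ∃ y : V3, b i ⬝ᵥ y = 0 ∧ ∀ j, j ≠ i → 0 < (b j ⬝ᵥ x) * (b j ⬝ᵥ y)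

open Classical in
/-- the index set of the sides -/
noncomputable def SideSet (b : ι → V3) (x : V3) : Finset ι := Finset.univ.filter (Side b x)

open Classical in
/-- the face of the arrangement which contains the point `x` -/
noncomputable def face (b : ι → V3) (x : V3) : Set P2 :=
  if h : x ≠ 0 then connectedComponentIn (compl (arr b)) (Projectivization.mk ℝ x h) else ∅

end

end Pool.Agent.Arr
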