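import Mathlib
import Pool.Agent.Arr.Defs

/-!
# Counting
-/

open scoped LinearAlgebra.Projectivization
open Matrix Set

namespace Pool.Agent.Arr

section

variable {ι : Type} [Fintype ι]

omit [Fintype ι] in
theorem cnt_aux [DecidableEq ι] : ∀ (k : ℕ) (L : Fin k → Finset ι),
    (∀ i j, i ≠ j → (L i ∩ L j).card ≤ 4) →
    (∑ i, ((L i).card : ℤ)) ≤ ((Finset.univ.biUnion L).card : ℤ) + 2 * k * (k - 1) := by
  intro k
  induction k with
  | zero => intro L _; simp
  | succ k ih =>
    intro L h
    have h1 := ih (fun i => L i.castSucc) (fun i j hij => h _ _ (fun e => hij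
      (Fin.castSucc_injective _ e)))
    rw [Fin.sum_univ_castSucc]
    set U := Finset.univ.biUnion (fun i : Fin k => L i.castSucc) with hU
    set V := L (Fin.last k) with hV
    have h2 : Finset.univ.biUnion L = U ∪ V := by
      ext l
      simp only [hU, hV, Finset.mem_union, Finset.mem_biUnion, Finset.mem_univ, true_and]
      rw [Fin.exists_fin_succ']
    have h3 := Finset.card_union_add_card_inter U V
    have h4 : (U ∩ V).card ≤ 4 * k := by
      rw [hU, Finset.biUnion_inter]
      refine Finset.card_biUnion_le.trans ?_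
      refine (Finset.sum_le_card_nsmul _ _ 4 ?_).trans ?_
      · intro i _
        exact h _ _ (Fin.castSucc_lt_last i).ne
      · simp [mul_comm]
    rw [h2]
    have h5 : (((U ∪ V).card : ℕ) : ℤ) + ((U ∩ V).card : ℕ) = U.card + V.card := by
      exact_mod_cast h3
    have h6 : (((U ∩ V).card : ℕ) : ℤ) ≤ 4 * k := by exact_mod_cast h4
    push_cast
    linarith

theorem sum_card_le [DecidableEq ι] (k : ℕ) (L : Fin k → Finset ι)
    (h : ∀ i j, i ≠ j → (L i ∩ L j).card ≤ 4) :
    (∑ i, ((L i).card : ℤ)) ≤ Fintype.card ι + 2 * k * (k - 1) := by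
  refine (cnt_aux k L h).trans ?_
  have : (((Finset.univ.biUnion L).card : ℕ) : ℤ) ≤ Fintype.card ι := by
    exact_mod_cast Finset.card_le_univ _
  linarith

end

end Pool.Agent.Arr
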