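import Pool.Agent.Arr.TOPA

/-!
# Faces and sign vectors
-/

open scoped LinearAlgebra.Projectivization
open Matrix Set

namespace Pool.Agent.Arr

variable {ι : Type} [Fintype ι]

/-- two vectors have the same signs on the indices satisfying `P`, up to a global sign -/
def Same (P : ι → Prop) (b : ι → V3) (x y : V3) : Prop :=
  (∀ j, P j → 0 < (b j ⬝ᵥ x) * (b j ⬝ᵥ y)) ∨ (∀ j, P j → (b j ⬝ᵥ x) * (b j ⬝ᵥ y) < 0)

theorem same_of_pairs {P : ι → Prop} {b : ι → V3} {x y : V3}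
    (h : ∀ j l, P j → P l → 0 < ((b j ⬝ᵥ x) * (b l ⬝ᵥ x)) * ((b j ⬝ᵥ y) * (b l ⬝ᵥ y))) :
    Same P b x y := by
  by_cases hP : ∃ j, P j
  · obtain ⟨j₀, hj₀⟩ := hP
    have h0 := h j₀ j₀ hj₀ hj₀
    have hne : (b j₀ ⬝ᵥ x) * (b j₀ ⬝ᵥ y) ≠ 0 := by
      intro h1
      have : ((b j₀ ⬝ᵥ x) * (b j₀ ⬝ᵥ x)) * ((b j₀ ⬝ᵥ y) * (b j₀ ⬝ᵥ y)) =
        ((b j₀ ⬝ᵥ x) * (b j₀ ⬝ᵥ y)) ^ 2 := by ring
      rw [this, h1] at h0
      norm_num at h0
    rcases lt_or_gt_of_ne hne with h1 | h1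
    · right
      intro j hj
      have h2 := h j j₀ hj hj₀
      have h3 : ((b j ⬝ᵥ x) * (b j₀ ⬝ᵥ x)) * ((b j ⬝ᵥ y) * (b j₀ ⬝ᵥ y)) =
        ((b j ⬝ᵥ x) * (b j ⬝ᵥ y)) * ((b j₀ ⬝ᵥ x) * (b j₀ ⬝ᵥ y)) := by ring
      rw [h3] at h2
      by_contra h4
      push Not at h4
      have := mul_nonpos_of_nonneg_of_nonpos h4 h1.le
      linarith
    · left
      intro j hj
      have h2 := h j j₀ hj hj₀
      have h3 : ((b j ⬝ᵥ x) * (b j₀ ⬝ᵥ x)) * ((b j ⬝ᵥ y) * (b j₀ ⬝ᵥ y)) =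
        ((b j ⬝ᵥ x) * (b j ⬝ᵥ y)) * ((b j₀ ⬝ᵥ x) * (b j₀ ⬝ᵥ y)) := by ring
      rw [h3] at h2
      exact pos_of_mul_pos_of_pos_right' h2 h1
  · left
    intro j hj
    exact absurd ⟨j, hj⟩ hP
where
  pos_of_mul_pos_of_pos_right' {u v : ℝ} (h : 0 < u * v) (hv : 0 < v) : 0 < u :=
    (pos_iff_pos_of_mul_pos h).2 hv

theorem same_symm {P : ι → Prop} {b : ι → V3} {x y : V3} (h : Same P b x y) : Same P b y x := by
  rcases h with h | h
  · left; intro j hj; rw [mul_comm]; exact h j hj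
  · right; intro j hj; rw [mul_comm]; exact h j hj

theorem pairs_of_same {P : ι → Prop} {b : ι → V3} {x y : V3} (h : Same P b x y) {j l : ι}
    (hj : P j) (hl : P l) : 0 < ((b j ⬝ᵥ x) * (b l ⬝ᵥ x)) * ((b j ⬝ᵥ y) * (b l ⬝ᵥ y)) := by
  have h3 : ((b j ⬝ᵥ x) * (b l ⬝ᵥ x)) * ((b j ⬝ᵥ y) * (b l ⬝ᵥ y)) =
        ((b j ⬝ᵥ x) * (b j ⬝ᵥ y)) * ((b l ⬝ᵥ x) * (b l ⬝ᵥ y)) := by ring
  rw [h3]
  rcases h with h | h
  · exact mul_pos (h j hj) (h l hl)
  · exact mul_pos_of_neg_of_neg (h j hj) (h l hl)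

theorem same_trans {P : ι → Prop} {b : ι → V3} {x y z : V3} (h : Same P b x y)
    (h' : Same P b y z) : Same P b x z := by
  apply same_of_pairs
  intro j l hj hl
  have h1 := pairs_of_same h hj hl
  have h2 := pairs_of_same h' hj hl
  have h3 := mul_pos h1 h2
  have h4 : ((b j ⬝ᵥ x) * (b l ⬝ᵥ x) * ((b j ⬝ᵥ y) * (b l ⬝ᵥ y))) *
      ((b j ⬝ᵥ y) * (b l ⬝ᵥ y) * ((b j ⬝ᵥ z) * (b l ⬝ᵥ z))) =
      ((b j ⬝ᵥ y) * (b l ⬝ᵥ y)) ^ 2 * ((b j ⬝ᵥ x) * (b l ⬝ᵥ x) * ((b j ⬝ᵥ z) * (b l ⬝ᵥ z))) := by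
    ring
  rw [h4] at h3
  exact pos_of_mul_pos_of_nonneg_left h3 (sq_nonneg _)
where
  pos_of_mul_pos_of_nonneg_left {u v : ℝ} (h : 0 < u * v) (hu : 0 ≤ u) : 0 < v := by
    by_contra h1
    push Not at h1
    have := mul_nonpos_of_nonneg_of_nonpos hu h1
    linarith

theorem same_neg {P : ι → Prop} {b : ι → V3} {x y : V3} (h : Same P b x y) :
    Same P b x (-y) := by
  rcases h with h | h
  · right; intro j hj; rw [dotProduct_neg]; have := h j hj; linarith
  · left; intro j hj; rw [dotProduct_neg]; have := h j hj; linarith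

theorem mk_neg {y : V3} (hy : y ≠ 0) (hy' : -y ≠ 0) :
    Projectivization.mk ℝ (-y) hy' = Projectivization.mk ℝ y hy := by
  rw [Projectivization.mk_eq_mk_iff']
  exact ⟨-1, by simp⟩

theorem mk_rep' (p : P2) : Projectivization.mk ℝ p.rep p.rep_nonzero = p := p.mk_rep

theorem face_subset (b : ι → V3) (x : V3) : face b x ⊆ compl (arr b) := by
  unfold face
  split_ifs
  · exact connectedComponentIn_subset _ _
  · exact empty_subset _

theorem ne_zero_of_off [Nonempty ι] {b : ι → V3} {x : V3} (hx : Off b x) : x ≠ 0 := by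
  rintro rfl
  exact hx (Classical.arbitrary ι) (dotProduct_zero _)


theorem mem_compl_mk (b : ι → V3) {x : V3} (hx : x ≠ 0) :
    Projectivization.mk ℝ x hx ∈ compl (arr b) ↔ Off b x := by
  unfold compl arr Off
  simp only [Finset.mem_image, Finset.mem_univ, true_and, forall_exists_index,
    forall_apply_eq_imp_iff, mem_setOf_eq, mem_lineOf_mk, ne_eq]

theorem sameSide_iff (b : ι → V3) (x y : V3) : SameSide b x y ↔ Same (fun _ => True) b x y := by
  unfold SameSide Same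
  simp

theorem face_eq (b : ι → V3) {x : V3} (hx : x ≠ 0) :
    face b x = connectedComponentIn (compl (arr b)) (Projectivization.mk ℝ x hx) := by
  unfold face
  rw [dif_pos hx]

/-- membership in a face by signs -/
theorem mk_mem_face_iff [Nonempty ι] (b : ι → V3) {x y : V3} (hx : Off b x) (hy : y ≠ 0) :
    Projectivization.mk ℝ y hy ∈ face b x ↔ SameSide b x y := by
  have hx0 : x ≠ 0 := ne_zero_of_off hx
  rw [face_eq b hx0, sameSide_iff]
  constructor
  · intro h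
    apply same_of_pairs
    intro j l _ _
    have hnot : ∀ j, ∀ p ∈ connectedComponentIn (compl (arr b)) (Projectivization.mk ℝ x hx0),
        p ∉ lineOf (b j) := by
      intro j p hp
      exact connectedComponentIn_subset _ _ hp (lineOf (b j))
        (by unfold arr; exact Finset.mem_image_of_mem _ (Finset.mem_univ j))
    exact sign_const isPreconnected_connectedComponentIn (hnot j) (hnot l) hx0 hy
      (mem_connectedComponentIn ((mem_compl_mk b hx0).2 hx)) h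
  · have key : ∀ (z : V3) (hz : z ≠ 0), (∀ j, 0 < (b j ⬝ᵥ x) * (b j ⬝ᵥ z)) →
        Projectivization.mk ℝ z hz ∈ connectedComponentIn (compl (arr b))
          (Projectivization.mk ℝ x hx0) := by
      intro z hz hpos
      apply segment_component hx0 hz
      intro t ht
      have h3 : Off b ((1 - t) • x + t • z) := by
        intro j h4
        rw [dotProduct_add, dotProduct_smul, dotProduct_smul, smul_eq_mul, smul_eq_mul] at h4
        have h5 := hpos j
        have h6 : 0 < (b j ⬝ᵥ x) * (b j ⬝ᵥ x) := mul_self_pos.2 (hx j)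
        have h7 : (b j ⬝ᵥ x) * ((1 - t) * (b j ⬝ᵥ x) + t * (b j ⬝ᵥ z)) = 0 := by rw [h4, mul_zero]
        have h8 : (1 - t) * ((b j ⬝ᵥ x) * (b j ⬝ᵥ x)) + t * ((b j ⬝ᵥ x) * (b j ⬝ᵥ z)) = 0 := by
          rw [← h7]; ring
        rcases ht.1.eq_or_lt with h0 | h0
        · rw [← h0] at h8
          simp at h8
          exact hx j h8
        · have h9 : 0 < t * ((b j ⬝ᵥ x) * (b j ⬝ᵥ z)) := mul_pos h0 h5
          have h10 : 0 ≤ (1 - t) * ((b j ⬝ᵥ x) * (b j ⬝ᵥ x)) :=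
            mul_nonneg (by linarith [ht.2]) h6.le
          linarith
      have hz0 : (1 - t) • x + t • z ≠ 0 := ne_zero_of_off h3
      exact ⟨hz0, (mem_compl_mk b hz0).2 h3⟩
    intro h
    rcases h with h | h
    · exact key y hy fun j => h j trivial
    · have hy' : -y ≠ 0 := neg_ne_zero.2 hy
      rw [← mk_neg hy hy']
      apply key (-y) hy'
      intro j
      rw [dotProduct_neg]
      have := h j trivial
      linarith

theorem face_eq_iff [Nonempty ι] (b : ι → V3) {x y : V3} (hx : Off b x) (hy : Off b y) :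
    face b x = face b y ↔ SameSide b x y := by
  have hx0 : x ≠ 0 := ne_zero_of_off hx
  have hy0 : y ≠ 0 := ne_zero_of_off hy
  rw [← mk_mem_face_iff b hx hy0]
  constructor
  · intro h
    rw [h, face_eq b hy0]
    exact mem_connectedComponentIn ((mem_compl_mk b hy0).2 hy)
  · intro h
    rw [face_eq b hx0] at h ⊢
    rw [face_eq b hy0]
    exact connectedComponentIn_eq h

theorem isFace_iff [Nonempty ι] (b : ι → V3) (F : Set P2) :
    IsFace (arr b) F ↔ ∃ x, Off b x ∧ F = face b x := by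
  constructor
  · rintro ⟨p, hp, rfl⟩
    have hpm := mk_rep' p
    refine ⟨p.rep, ?_, ?_⟩
    · rw [← mem_compl_mk b p.rep_nonzero, hpm]
      exact hp
    · rw [face_eq b p.rep_nonzero, hpm]
  · rintro ⟨x, hx, rfl⟩
    have hx0 : x ≠ 0 := ne_zero_of_off hx
    exact ⟨_, (mem_compl_mk b hx0).2 hx, face_eq b hx0⟩

end Pool.Agent.Arr
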