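import Pool.Agent.Arr.Defs

/-!
# Perturbation to general position
-/

open scoped LinearAlgebra.Projectivization Topology
open Matrix Set Filter

namespace Pool.Agent.Arr

namespace Pert

theorem eventually_det (A B : Matrix (Fin 3) (Fin 3) ℝ) (hA : A.det ≠ 0) :
    ∀ᶠ t in 𝓝[>] (0 : ℝ), (B + t • A).det ≠ 0 := by
  obtain ⟨P, hP⟩ : ∃ P : Polynomial ℝ, P =
    ((Polynomial.X : Polynomial ℝ) • A.map Polynomial.C + B.map Polynomial.C).det := ⟨_, rfl⟩
  have hcoeff : P.coeff 3 = A.det := by
    have := Polynomial.coeff_det_X_add_C_card A B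
    rw [← hP] at this
    simpa using this
  have hP0 : P ≠ 0 := by
    intro h
    rw [h, Polynomial.coeff_zero] at hcoeff
    exact hA hcoeff.symm
  have heval : ∀ t : ℝ, P.eval t = (B + t • A).det := by
    intro t
    rw [hP, ← Polynomial.coe_evalRingHom, RingHom.map_det]
    congr 1
    ext i j
    simp only [RingHom.mapMatrix_apply, Matrix.map_apply, Matrix.add_apply, Matrix.smul_apply,
      smul_eq_mul, Polynomial.coe_evalRingHom, Polynomial.eval_add, Polynomial.eval_mul,
      Polynomial.eval_X, Polynomial.eval_C]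
    ring
  have hnb : ((P.roots.toFinset.erase 0 : Finset ℝ) : Set ℝ)ᶜ ∈ 𝓝 (0 : ℝ) :=
    (Finset.finite_toSet _).isClosed.isOpen_compl.mem_nhds (by simp)
  filter_upwards [mem_nhdsWithin_of_mem_nhds hnb, self_mem_nhdsWithin] with t ht ht0
  intro h
  apply ht
  rw [Finset.mem_coe, Finset.mem_erase, Multiset.mem_toFinset, Polynomial.mem_roots hP0,
    Polynomial.IsRoot.def, heval, h]
  exact ⟨(ne_of_gt ht0), rfl⟩

end Pert

section

variable {ι : Type} [Fintype ι]

theorem perturb {κ : Type} [Fintype κ] (b : ι → V3) (c : κ → V3) (hc : ∀ q, Off b (c q)) :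
    ∃ b' : ι → V3, Gen b' ∧ (∀ q, Off b' (c q)) ∧
      (∀ q i, 0 < (b i ⬝ᵥ c q) * (b' i ⬝ᵥ c q)) ∧ ∀ q i, Side b (c q) i → Side b' (c q) i := by
  classical
  -- distinct reals
  obtain ⟨x, hx⟩ : ∃ x : ι → ℝ, Function.Injective x :=
    ⟨fun i => ((Fintype.equivFin ι i).val : ℝ), fun i j h => by
      apply (Fintype.equivFin ι).injective
      apply Fin.ext
      have h' : ((Fintype.equivFin ι i).val : ℝ) = ((Fintype.equivFin ι j).val : ℝ) := h
      exact_mod_cast h'⟩
  obtain ⟨w, hw⟩ : ∃ w : ι → V3, w = fun i (j : Fin 3) => x i ^ (j : ℕ) :=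
    ⟨_, rfl⟩
  -- general position
  have hgen : ∀ᶠ t in 𝓝[>] (0 : ℝ), ∀ i j l : ι, i ≠ j → i ≠ l → j ≠ l →
      (Matrix.of ![b i + t • w i, b j + t • w j, b l + t • w l]).det ≠ 0 := by
    rw [eventually_all]; intro i
    rw [eventually_all]; intro j
    rw [eventually_all]; intro l
    by_cases h : i ≠ j ∧ i ≠ l ∧ j ≠ l
    · have hA : (Matrix.vandermonde ![x i, x j, x l]).det ≠ 0 := by
        rw [Matrix.det_vandermonde_ne_zero_iff]
        intro p q hpq
        fin_cases p <;> fin_cases q <;> simp at hpq <;> first | rfl | skip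
        · exact absurd (hx hpq) h.1
        · exact absurd (hx hpq) h.2.1
        · exact absurd (hx hpq) h.1.symm
        · exact absurd (hx hpq) h.2.2
        · exact absurd (hx hpq) h.2.1.symm
        · exact absurd (hx hpq) h.2.2.symm
      filter_upwards [Pert.eventually_det _ (Matrix.of ![b i, b j, b l]) hA] with t ht _ _ _
      have : (Matrix.of ![b i + t • w i, b j + t • w j, b l + t • w l]) =
          Matrix.of ![b i, b j, b l] + t • Matrix.vandermonde ![x i, x j, x l] := by
        ext p q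
        fin_cases p <;> simp [hw, Matrix.vandermonde]
      rw [this]
      exact ht
    · refine Eventually.of_forall fun t h1 h2 h3 => absurd ⟨h1, h2, h3⟩ h
  -- signs at the points
  have hsign : ∀ᶠ t in 𝓝[>] (0 : ℝ), ∀ q i,
      0 < (b i ⬝ᵥ c q) * ((b i + t • w i) ⬝ᵥ c q) := by
    rw [eventually_all]; intro q
    rw [eventually_all]; intro i
    have hcont : ContinuousAt (fun t : ℝ => (b i ⬝ᵥ c q) * ((b i + t • w i) ⬝ᵥ c q)) 0 := by
      simp only [add_dotProduct, smul_dotProduct, smul_eq_mul]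
      fun_prop
    have hpos : 0 < (b i ⬝ᵥ c q) * ((b i + (0 : ℝ) • w i) ⬝ᵥ c q) := by
      rw [zero_smul, add_zero]
      exact mul_self_pos.mpr (hc q i)
    exact (hcont.eventually (lt_mem_nhds hpos)).filter_mono nhdsWithin_le_nhds
  -- sides
  have hside : ∀ᶠ t in 𝓝[>] (0 : ℝ), ∀ q i, Side b (c q) i →
      Side (fun i => b i + t • w i) (c q) i := by
    rw [eventually_all]; intro q
    rw [eventually_all]; intro i
    by_cases hs : Side b (c q) i
    · obtain ⟨y, hy0, hy⟩ := hs
      have hbi : b i ⬝ᵥ b i ≠ 0 := by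
        intro h
        rw [dotProduct_self_eq_zero] at h
        apply hc q i
        rw [h, zero_dotProduct]
      have h1 : ∀ᶠ t in 𝓝[>] (0 : ℝ), (b i + t • w i) ⬝ᵥ (b i + t • w i) ≠ 0 := by
        have hcont : ContinuousAt (fun t : ℝ => (b i + t • w i) ⬝ᵥ (b i + t • w i)) 0 := by
          simp only [add_dotProduct, smul_dotProduct, smul_eq_mul, dotProduct_add,
            dotProduct_smul]
          fun_prop
        have : (b i + (0 : ℝ) • w i) ⬝ᵥ (b i + (0 : ℝ) • w i) ≠ 0 := by
          rw [zero_smul, add_zero]; exact hbi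
        exact (hcont.eventually_ne this).filter_mono nhdsWithin_le_nhds
      have h2 : ∀ᶠ t in 𝓝[>] (0 : ℝ), ∀ j, j ≠ i → 0 < ((b j + t • w j) ⬝ᵥ c q) *
          ((b j + t • w j) ⬝ᵥ (y - (((b i + t • w i) ⬝ᵥ y) /
            ((b i + t • w i) ⬝ᵥ (b i + t • w i))) • (b i + t • w i))) := by
        rw [eventually_all]; intro j
        by_cases hj : j ≠ i
        · have hcont : ContinuousAt (fun t : ℝ => ((b j + t • w j) ⬝ᵥ c q) *
              ((b j + t • w j) ⬝ᵥ (y - (((b i + t • w i) ⬝ᵥ y) /
              ((b i + t • w i) ⬝ᵥ (b i + t • w i))) • (b i + t • w i)))) 0 := by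
            simp only [add_dotProduct, smul_dotProduct, smul_eq_mul, dotProduct_add,
              dotProduct_smul, dotProduct_sub]
            have hne : b i ⬝ᵥ b i + 0 * (w i ⬝ᵥ b i) + 0 * (b i ⬝ᵥ w i + 0 * (w i ⬝ᵥ w i)) ≠ 0 := by
              simpa using hbi
            fun_prop (disch := simpa using hbi)
          have hpos : 0 < ((b j + (0 : ℝ) • w j) ⬝ᵥ c q) *
              ((b j + (0 : ℝ) • w j) ⬝ᵥ (y - (((b i + (0 : ℝ) • w i) ⬝ᵥ y) /
              ((b i + (0 : ℝ) • w i) ⬝ᵥ (b i + (0 : ℝ) • w i))) • (b i + (0 : ℝ) • w i))) := by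
            simp only [zero_smul, add_zero, hy0, zero_div, sub_zero]
            exact hy j hj
          filter_upwards [(hcont.eventually (lt_mem_nhds hpos)).filter_mono nhdsWithin_le_nhds]
            with t ht _
          exact ht
        · exact Eventually.of_forall fun t h => absurd h hj
      filter_upwards [h1, h2] with t ht1 ht2 _
      refine ⟨y - (((b i + t • w i) ⬝ᵥ y) / ((b i + t • w i) ⬝ᵥ (b i + t • w i))) •
        (b i + t • w i), ?_, ht2⟩
      simp only
      rw [dotProduct_sub, dotProduct_smul, smul_eq_mul, div_mul_cancel₀ _ ht1, sub_self]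
    · exact Eventually.of_forall fun t h => absurd h hs
  obtain ⟨t, h1, h2, h3⟩ := (hgen.and (hsign.and hside)).exists
  refine ⟨fun i => b i + t • w i, ?_, ?_, h2, h3⟩
  · intro i j l hij hil hjl z hi hj hl
    refine Matrix.eq_zero_of_mulVec_eq_zero (h1 i j l hij hil hjl) ?_
    ext p
    fin_cases p
    · exact hi
    · exact hj
    · exact hl
  · intro q i h
    have := h2 q i
    simp only at h
    rw [h, mul_zero] at this
    exact lt_irrefl _ this

end

end Pool.Agent.Arr
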