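import Mathlib
import Pool.Agent.Arr.Defs

/-!
# Two different faces share at most four lines
-/

open scoped LinearAlgebra.Projectivization
open Matrix Set

namespace Pool.Agent.Arr

/-- the determinant -/
def upDet (u v w : V3) : ℝ :=
  u 0 * (v 1 * w 2 - v 2 * w 1) - u 1 * (v 0 * w 2 - v 2 * w 0) + u 2 * (v 0 * w 1 - v 1 * w 0)

theorem up_dot (u v : V3) : u ⬝ᵥ v = u 0 * v 0 + u 1 * v 1 + u 2 * v 2 := by
  simp [dotProduct, Fin.sum_univ_three]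

theorem up_det_of (u v w : V3) : (Matrix.of ![u, v, w]).det = upDet u v w := by
  rw [Matrix.det_fin_three]
  simp only [upDet, Matrix.of_apply, Matrix.cons_val_zero, Matrix.cons_val_one,
    Matrix.cons_val]
  ring

theorem up_exists_zero {u v w : V3} (h : upDet u v w = 0) :
    ∃ x : V3, x ≠ 0 ∧ u ⬝ᵥ x = 0 ∧ v ⬝ᵥ x = 0 ∧ w ⬝ᵥ x = 0 := by
  have hdet : (Matrix.of ![u, v, w]).det = 0 := by rw [up_det_of, h]
  obtain ⟨x, hx, hM⟩ := Matrix.exists_mulVec_eq_zero_iff.2 hdet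
  refine ⟨x, hx, ?_, ?_, ?_⟩
  · have := congrFun hM 0
    simpa [Matrix.mulVec] using this
  · have := congrFun hM 1
    simpa [Matrix.mulVec] using this
  · have := congrFun hM 2
    simpa [Matrix.mulVec] using this

theorem up_exists_rel {u v w β : V3} (hβ : β ≠ 0) (hu : β ⬝ᵥ u = 0) (hv : β ⬝ᵥ v = 0)
    (hw : β ⬝ᵥ w = 0) : ∃ c : V3, c ≠ 0 ∧ ∀ a : V3,
      c 0 * (a ⬝ᵥ u) + c 1 * (a ⬝ᵥ v) + c 2 * (a ⬝ᵥ w) = 0 := by
  have hdet : (Matrix.of ![u, v, w]).det = 0 := by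
    apply Matrix.exists_mulVec_eq_zero_iff.1
    refine ⟨β, hβ, ?_⟩
    funext i
    fin_cases i
    · simpa [Matrix.mulVec, dotProduct_comm] using hu
    · simpa [Matrix.mulVec, dotProduct_comm] using hv
    · simpa [Matrix.mulVec, dotProduct_comm] using hw
  obtain ⟨c, hc, hM⟩ := Matrix.exists_vecMul_eq_zero_iff.2 hdet
  refine ⟨c, hc, fun a => ?_⟩
  have h : ∀ l : Fin 3, c 0 * u l + c 1 * v l + c 2 * w l = 0 := by
    intro l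
    have := congrFun hM l
    simpa [Matrix.vecMul, dotProduct, Fin.sum_univ_three] using this
  rw [up_dot, up_dot, up_dot]
  linear_combination a 0 * h 0 + a 1 * h 1 + a 2 * h 2

/-- not all signs are equal in a relation with positive weights -/
theorem up_triple {c₁ c₂ c₃ m₁ m₂ m₃ : ℝ} (h1 : 0 < c₁) (h2 : 0 < c₂) (h3 : 0 < c₃)
    (h : c₁ * m₁ + c₂ * m₂ + c₃ * m₃ = 0) :
    ¬ (0 < m₁ ∧ 0 < m₂ ∧ 0 < m₃) ∧ ¬ (m₁ < 0 ∧ m₂ < 0 ∧ m₃ < 0) := by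
  constructor
  · rintro ⟨a, b, c⟩
    have := mul_pos h1 a
    have := mul_pos h2 b
    have := mul_pos h3 c
    linarith
  · rintro ⟨a, b, c⟩
    have := mul_neg_of_pos_of_neg h1 a
    have := mul_neg_of_pos_of_neg h2 b
    have := mul_neg_of_pos_of_neg h3 c
    linarith

theorem up_prod {m1 m2 m3 m4 : ℝ} (h1 : m1 ≠ 0) (h2 : m2 ≠ 0) (h3 : m3 ≠ 0) (h4 : m4 ≠ 0)
    (n1 : ¬ (0 < m2 ∧ 0 < m3 ∧ 0 < m4) ∧ ¬ (m2 < 0 ∧ m3 < 0 ∧ m4 < 0))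
    (n2 : ¬ (0 < m1 ∧ 0 < m3 ∧ 0 < m4) ∧ ¬ (m1 < 0 ∧ m3 < 0 ∧ m4 < 0))
    (n3 : ¬ (0 < m1 ∧ 0 < m2 ∧ 0 < m4) ∧ ¬ (m1 < 0 ∧ m2 < 0 ∧ m4 < 0))
    (n4 : ¬ (0 < m1 ∧ 0 < m2 ∧ 0 < m3) ∧ ¬ (m1 < 0 ∧ m2 < 0 ∧ m3 < 0)) :
    0 < m1 * m2 * m3 * m4 := by
  have hpos : 0 < |m1| * |m2| * |m3| * |m4| := by positivity
  have key : m1 * m2 * m3 * m4 = |m1| * |m2| * |m3| * |m4| := by
    rcases lt_or_gt_of_ne h1 with a | a <;> rcases lt_or_gt_of_ne h2 with b | b <;>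
      rcases lt_or_gt_of_ne h3 with c | c <;> rcases lt_or_gt_of_ne h4 with d | d <;>
      first
        | exact (n1.1 ⟨b, c, d⟩).elim
        | exact (n1.2 ⟨b, c, d⟩).elim
        | exact (n2.1 ⟨a, c, d⟩).elim
        | exact (n2.2 ⟨a, c, d⟩).elim
        | exact (n3.1 ⟨a, b, d⟩).elim
        | exact (n3.2 ⟨a, b, d⟩).elim
        | exact (n4.1 ⟨a, b, c⟩).elim
        | exact (n4.2 ⟨a, b, c⟩).elim
        | (first | rw [abs_of_pos a] | rw [abs_of_neg a]) <;>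
          (first | rw [abs_of_pos b] | rw [abs_of_neg b]) <;>
          (first | rw [abs_of_pos c] | rw [abs_of_neg c]) <;>
          (first | rw [abs_of_pos d] | rw [abs_of_neg d]) <;> ring
  rw [key]
  exact hpos

/-- `v` is a positive multiple of `u` -/
theorem up_scale {u v : ℝ} (h : 0 < u * v) : ∃ c : ℝ, 0 < c ∧ v = c * u := by
  have hu : u ≠ 0 := by rintro rfl; simp at h
  refine ⟨(u * v) / (u * u), div_pos h (mul_self_pos.2 hu), ?_⟩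
  field_simp

section

variable {ι : Type} [Fintype ι]

theorem up_four (b : ι → V3) (x : V3) {l₁ l₂ l₃ l₄ : ℝ}
    {i₁ i₂ i₃ i₄ : ι} (h12 : i₁ ≠ i₂) (h13 : i₁ ≠ i₃) (h14 : i₁ ≠ i₄) (h23 : i₂ ≠ i₃)
    (h24 : i₂ ≠ i₄) (h34 : i₃ ≠ i₄)
    (hrel : ∀ y : V3, l₁ * (b i₁ ⬝ᵥ y) + l₂ * (b i₂ ⬝ᵥ y) + l₃ * (b i₃ ⬝ᵥ y) +
      l₄ * (b i₄ ⬝ᵥ y) = 0) (n1 : l₁ * (b i₁ ⬝ᵥ x) ≠ 0) (n2 : l₂ * (b i₂ ⬝ᵥ x) ≠ 0)
    (n3 : l₃ * (b i₃ ⬝ᵥ x) ≠ 0) (n4 : l₄ * (b i₄ ⬝ᵥ x) ≠ 0)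
    (s1 : Side b x i₁) (s2 : Side b x i₂) (s3 : Side b x i₃) (s4 : Side b x i₄) :
    0 < (l₁ * (b i₁ ⬝ᵥ x)) * (l₂ * (b i₂ ⬝ᵥ x)) * (l₃ * (b i₃ ⬝ᵥ x)) * (l₄ * (b i₄ ⬝ᵥ x)) := by
  apply up_prod n1 n2 n3 n4
  · obtain ⟨y, hy0, hy⟩ := s1
    obtain ⟨c2, hc2, e2⟩ := up_scale (hy i₂ h12.symm)
    obtain ⟨c3, hc3, e3⟩ := up_scale (hy i₃ h13.symm)
    obtain ⟨c4, hc4, e4⟩ := up_scale (hy i₄ h14.symm)
    apply up_triple hc2 hc3 hc4
    have h := hrel y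
    rw [hy0, e2, e3, e4] at h
    linear_combination h
  · obtain ⟨y, hy0, hy⟩ := s2
    obtain ⟨c1, hc1, e1⟩ := up_scale (hy i₁ h12)
    obtain ⟨c3, hc3, e3⟩ := up_scale (hy i₃ h23.symm)
    obtain ⟨c4, hc4, e4⟩ := up_scale (hy i₄ h24.symm)
    apply up_triple hc1 hc3 hc4
    have h := hrel y
    rw [hy0, e1, e3, e4] at h
    linear_combination h
  · obtain ⟨y, hy0, hy⟩ := s3
    obtain ⟨c1, hc1, e1⟩ := up_scale (hy i₁ h13)
    obtain ⟨c2, hc2, e2⟩ := up_scale (hy i₂ h23)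
    obtain ⟨c4, hc4, e4⟩ := up_scale (hy i₄ h34.symm)
    apply up_triple hc1 hc2 hc4
    have h := hrel y
    rw [hy0, e1, e2, e4] at h
    linear_combination h
  · obtain ⟨y, hy0, hy⟩ := s4
    obtain ⟨c1, hc1, e1⟩ := up_scale (hy i₁ h14)
    obtain ⟨c2, hc2, e2⟩ := up_scale (hy i₂ h24)
    obtain ⟨c3, hc3, e3⟩ := up_scale (hy i₃ h34)
    apply up_triple hc1 hc2 hc3
    have h := hrel y
    rw [hy0, e1, e2, e3] at h
    linear_combination h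

theorem four_balanced (b : ι → V3) (hb : Gen b) (x z : V3) (hx : Off b x) (hz : Off b z)
    {i₁ i₂ i₃ i₄ : ι} (h12 : i₁ ≠ i₂) (h13 : i₁ ≠ i₃) (h14 : i₁ ≠ i₄) (h23 : i₂ ≠ i₃)
    (h24 : i₂ ≠ i₄) (h34 : i₃ ≠ i₄) (hxs : ∀ i ∈ ({i₁, i₂, i₃, i₄} : Set ι), Side b x i)
    (hzs : ∀ i ∈ ({i₁, i₂, i₃, i₄} : Set ι), Side b z i) :
    0 < ((b i₁ ⬝ᵥ x) * (b i₁ ⬝ᵥ z)) * ((b i₂ ⬝ᵥ x) * (b i₂ ⬝ᵥ z)) *
      ((b i₃ ⬝ᵥ x) * (b i₃ ⬝ᵥ z)) * ((b i₄ ⬝ᵥ x) * (b i₄ ⬝ᵥ z)) := by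
  have hdet : ∀ {i j l : ι}, i ≠ j → i ≠ l → j ≠ l → upDet (b i) (b j) (b l) ≠ 0 := by
    intro i j l hij hil hjl h
    obtain ⟨w, hw, e1, e2, e3⟩ := up_exists_zero h
    exact hw (hb i j l hij hil hjl w e1 e2 e3)
  set l₁ := upDet (b i₂) (b i₃) (b i₄) with hl1
  set l₂ := - upDet (b i₁) (b i₃) (b i₄) with hl2
  set l₃ := upDet (b i₁) (b i₂) (b i₄) with hl3
  set l₄ := - upDet (b i₁) (b i₂) (b i₃) with hl4
  have k1 : l₁ ≠ 0 := hdet h23 h24 h34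
  have k2 : l₂ ≠ 0 := neg_ne_zero.2 (hdet h13 h14 h34)
  have k3 : l₃ ≠ 0 := hdet h12 h14 h24
  have k4 : l₄ ≠ 0 := neg_ne_zero.2 (hdet h12 h13 h23)
  have hrel : ∀ y : V3, l₁ * (b i₁ ⬝ᵥ y) + l₂ * (b i₂ ⬝ᵥ y) + l₃ * (b i₃ ⬝ᵥ y) +
      l₄ * (b i₄ ⬝ᵥ y) = 0 := by
    intro y
    rw [hl1, hl2, hl3, hl4]
    simp only [up_dot, upDet]
    ring
  have hX := up_four b x h12 h13 h14 h23 h24 h34 hrel (mul_ne_zero k1 (hx _))
    (mul_ne_zero k2 (hx _)) (mul_ne_zero k3 (hx _)) (mul_ne_zero k4 (hx _))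
    (hxs _ (by simp)) (hxs _ (by simp)) (hxs _ (by simp)) (hxs _ (by simp))
  have hZ := up_four b z h12 h13 h14 h23 h24 h34 hrel (mul_ne_zero k1 (hz _))
    (mul_ne_zero k2 (hz _)) (mul_ne_zero k3 (hz _)) (mul_ne_zero k4 (hz _))
    (hzs _ (by simp)) (hzs _ (by simp)) (hzs _ (by simp)) (hzs _ (by simp))
  have hL : 0 < (l₁ * l₂ * l₃ * l₄) ^ 2 := by positivity
  have hXZ := mul_pos hX hZ
  refine (mul_pos_iff_of_pos_left hL).1 ?_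
  convert hXZ using 1
  ring

theorem up_two {c₁ c₂ a₁ a₂ s : ℝ} (h1 : 0 < s * a₁) (h2 : 0 < s * a₂)
    (h : c₁ * a₁ + c₂ * a₂ = 0) : (c₁ = 0 ↔ c₂ = 0) ∧ c₁ * c₂ ≤ 0 := by
  have n1 : a₁ ≠ 0 := by rintro rfl; simp at h1
  have n2 : a₂ ≠ 0 := by rintro rfl; simp at h2
  refine ⟨⟨fun e => ?_, fun e => ?_⟩, ?_⟩
  · rw [e] at h
    have : c₂ * a₂ = 0 := by linarith
    exact (mul_eq_zero.1 this).resolve_right n2
  · rw [e] at h
    have : c₁ * a₁ = 0 := by linarith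
    exact (mul_eq_zero.1 this).resolve_right n1
  · have hs : 0 < s * s := by
      have : s ≠ 0 := by rintro rfl; simp at h1
      exact mul_self_pos.2 this
    have hp : 0 < a₁ * a₂ := by
      have := mul_pos h1 h2
      refine (mul_pos_iff_of_pos_left hs).1 ?_
      convert this using 1
      ring
    by_contra hc
    push Not at hc
    have h3 : c₁ * a₁ = - (c₂ * a₂) := by linarith
    have h4 : (c₁ * c₂) * (a₁ * a₂) = - (c₂ * a₂) ^ 2 := by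
      linear_combination (c₂ * a₂) * h3
    have h5 := mul_pos hc hp
    nlinarith [sq_nonneg (c₂ * a₂)]

theorem three_same (b : ι → V3) (x z : V3) (hx : Off b x) (hz : Off b z)
    {i₁ i₂ i₃ m : ι} (h12 : i₁ ≠ i₂) (h13 : i₁ ≠ i₃) (h23 : i₂ ≠ i₃) (h1 : m ≠ i₁) (h2 : m ≠ i₂)
    (h3 : m ≠ i₃) (hxs : ∀ i ∈ ({i₁, i₂, i₃} : Set ι), Side b x i)
    (hzs : ∀ i ∈ ({i₁, i₂, i₃} : Set ι), Side b z i)
    (hpos : ∀ i ∈ ({i₁, i₂, i₃} : Set ι), 0 < (b i ⬝ᵥ x) * (b i ⬝ᵥ z))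
    (hneg : (b m ⬝ᵥ x) * (b m ⬝ᵥ z) < 0) : False := by
  have hβ : b m ≠ 0 := by
    intro h0
    apply hx m
    rw [h0, zero_dotProduct]
  have main : ∀ i, m ≠ i → Side b x i → Side b z i → ∃ r : V3, b m ⬝ᵥ r = 0 ∧ b i ⬝ᵥ r = 0 ∧
      ∀ j, j ≠ i → 0 < (b j ⬝ᵥ x) * (b j ⬝ᵥ z) →
        0 < ((b m ⬝ᵥ x) * (b j ⬝ᵥ x)) * (b j ⬝ᵥ r) := by
    rintro i hmi ⟨y, hy0, hy⟩ ⟨w, hw0, hw⟩
    refine ⟨(b m ⬝ᵥ y) • w - (b m ⬝ᵥ w) • y, ?_, ?_, ?_⟩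
    · rw [dotProduct_sub, dotProduct_smul, dotProduct_smul, smul_eq_mul, smul_eq_mul]
      ring
    · rw [dotProduct_sub, dotProduct_smul, dotProduct_smul, smul_eq_mul, smul_eq_mul, hy0, hw0]
      ring
    · intro j hji hj
      rw [dotProduct_sub, dotProduct_smul, dotProduct_smul, smul_eq_mul, smul_eq_mul]
      obtain ⟨c1, hc1, e1⟩ := up_scale (hy m hmi)
      obtain ⟨c2, hc2, e2⟩ := up_scale (hw m hmi)
      obtain ⟨c3, hc3, e3⟩ := up_scale (hy j hji)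
      obtain ⟨c4, hc4, e4⟩ := up_scale (hw j hji)
      rw [e1, e2, e3, e4]
      have hmm : 0 < (b m ⬝ᵥ x) ^ 2 := by
        have := hx m
        positivity
      have hjj : 0 < (b j ⬝ᵥ x) ^ 2 := by
        have := hx j
        positivity
      have p1 : 0 < (c1 * c4) * ((b m ⬝ᵥ x) ^ 2 * ((b j ⬝ᵥ x) * (b j ⬝ᵥ z))) := by positivity
      have p2 : 0 < (c2 * c3) * ((b j ⬝ᵥ x) ^ 2 * (-((b m ⬝ᵥ x) * (b m ⬝ᵥ z)))) := by
        have : 0 < -((b m ⬝ᵥ x) * (b m ⬝ᵥ z)) := by linarith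
        positivity
      linarith [p1, p2, show (b m ⬝ᵥ x) * (b j ⬝ᵥ x) *
        (c1 * (b m ⬝ᵥ x) * (c4 * (b j ⬝ᵥ z)) - c2 * (b m ⬝ᵥ z) * (c3 * (b j ⬝ᵥ x))) =
        (c1 * c4) * ((b m ⬝ᵥ x) ^ 2 * ((b j ⬝ᵥ x) * (b j ⬝ᵥ z))) +
        (c2 * c3) * ((b j ⬝ᵥ x) ^ 2 * (-((b m ⬝ᵥ x) * (b m ⬝ᵥ z)))) by ring]
  obtain ⟨r1, u1, v1, w1⟩ := main i₁ h1 (hxs _ (by simp)) (hzs _ (by simp))
  obtain ⟨r2, u2, v2, w2⟩ := main i₂ h2 (hxs _ (by simp)) (hzs _ (by simp))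
  obtain ⟨r3, u3, v3, w3⟩ := main i₃ h3 (hxs _ (by simp)) (hzs _ (by simp))
  obtain ⟨c, hc0, hc⟩ := up_exists_rel hβ u1 u2 u3
  have q1 := hpos i₁ (by simp)
  have q2 := hpos i₂ (by simp)
  have q3 := hpos i₃ (by simp)
  have e1 := hc (b i₁)
  have e2 := hc (b i₂)
  have e3 := hc (b i₃)
  rw [v1] at e1
  rw [v2] at e2
  rw [v3] at e3
  obtain ⟨a1, t1⟩ := up_two (c₁ := c 1) (c₂ := c 2) (w2 i₁ h12 q1) (w3 i₁ h13 q1)
    (by linarith)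
  obtain ⟨a2, t2⟩ := up_two (c₁ := c 0) (c₂ := c 2) (w1 i₂ h12.symm q2) (w3 i₂ h23 q2)
    (by linarith)
  obtain ⟨a3, t3⟩ := up_two (c₁ := c 0) (c₂ := c 1) (w1 i₃ h13.symm q3) (w2 i₃ h23.symm q3)
    (by linarith)
  by_cases h0 : c 0 = 0
  · apply hc0
    funext l
    fin_cases l
    · exact h0
    · exact a3.1 h0
    · exact a2.1 h0
  · have n1 : c 1 ≠ 0 := fun h => h0 (a3.2 h)
    have n2 : c 2 ≠ 0 := fun h => h0 (a2.2 h)
    have s1 : c 1 * c 2 < 0 := lt_of_le_of_ne t1 (mul_ne_zero n1 n2)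
    have s2 : c 0 * c 2 < 0 := lt_of_le_of_ne t2 (mul_ne_zero h0 n2)
    have s3 : c 0 * c 1 < 0 := lt_of_le_of_ne t3 (mul_ne_zero h0 n1)
    have s4 := mul_pos_of_neg_of_neg s1 s2
    have s5 := mul_neg_of_pos_of_neg s4 s3
    have s6 : c 1 * c 2 * (c 0 * c 2) * (c 0 * c 1) = (c 0 * c 1 * c 2) ^ 2 := by ring
    rw [s6] at s5
    exact absurd (sq_nonneg (c 0 * c 1 * c 2)) (not_le.2 s5)

open Classical in
theorem up_card_aux (b : ι → V3) (x z : V3) (hx : Off b x) (hz : Off b z)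
    (h : ¬ SameSide b x z) (f : Fin 5 → ι) (hf : Function.Injective f)
    (hsx : ∀ k, Side b x (f k)) (hsz : ∀ k, Side b z (f k))
    (hpos : ∀ k, 0 < (b (f k) ⬝ᵥ x) * (b (f k) ⬝ᵥ z)) : False := by
  have h1 : ¬ ∀ i, 0 < (b i ⬝ᵥ x) * (b i ⬝ᵥ z) := fun h' => h (Or.inl h')
  push Not at h1
  obtain ⟨m, hm⟩ := h1
  have hm' : (b m ⬝ᵥ x) * (b m ⬝ᵥ z) < 0 :=
    lt_of_le_of_ne hm (mul_ne_zero (hx m) (hz m))
  have hmf : ∀ k, m ≠ f k := by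
    rintro k rfl
    exact absurd (hpos k) (not_lt.2 hm)
  refine three_same b x z hx hz (i₁ := f 0) (i₂ := f 1) (i₃ := f 2) (m := m)
    (fun e => absurd (hf e) (by decide)) (fun e => absurd (hf e) (by decide))
    (fun e => absurd (hf e) (by decide)) (hmf 0) (hmf 1) (hmf 2) ?_ ?_ ?_ hm'
  · rintro i (rfl | rfl | rfl)
    exacts [hsx 0, hsx 1, hsx 2]
  · rintro i (rfl | rfl | rfl)
    exacts [hsz 0, hsz 1, hsz 2]
  · rintro i (rfl | rfl | rfl)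
    exacts [hpos 0, hpos 1, hpos 2]

open Classical in
theorem card_inter_le (b : ι → V3) (hb : Gen b) (x z : V3) (hx : Off b x) (hz : Off b z)
    (h : ¬ SameSide b x z) : (SideSet b x ∩ SideSet b z).card ≤ 4 := by
  by_contra hcard
  push Not at hcard
  obtain ⟨t, ht, htc⟩ := Finset.exists_subset_card_eq (show 5 ≤ (SideSet b x ∩ SideSet b z).card
    from hcard)
  let e := t.equivFinOfCardEq htc
  let f : Fin 5 → ι := fun k => (e.symm k : ι)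
  have hf : Function.Injective f := fun k l hkl => e.symm.injective (Subtype.ext hkl)
  have hmem : ∀ k, f k ∈ SideSet b x ∩ SideSet b z := fun k => ht (e.symm k).2
  have hsx : ∀ k, Side b x (f k) := fun k => by
    have := (Finset.mem_inter.1 (hmem k)).1
    simpa [SideSet] using this
  have hsz : ∀ k, Side b z (f k) := fun k => by
    have := (Finset.mem_inter.1 (hmem k)).2
    simpa [SideSet] using this
  have h4 : ∀ k₁ k₂ k₃ k₄ : Fin 5, k₁ ≠ k₂ → k₁ ≠ k₃ → k₁ ≠ k₄ → k₂ ≠ k₃ → k₂ ≠ k₄ → k₃ ≠ k₄ →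
      0 < ((b (f k₁) ⬝ᵥ x) * (b (f k₁) ⬝ᵥ z)) * ((b (f k₂) ⬝ᵥ x) * (b (f k₂) ⬝ᵥ z)) *
        ((b (f k₃) ⬝ᵥ x) * (b (f k₃) ⬝ᵥ z)) * ((b (f k₄) ⬝ᵥ x) * (b (f k₄) ⬝ᵥ z)) := by
    intro k₁ k₂ k₃ k₄ e1 e2 e3 e4 e5 e6
    refine four_balanced b hb x z hx hz (hf.ne e1) (hf.ne e2) (hf.ne e3) (hf.ne e4) (hf.ne e5)
      (hf.ne e6) ?_ ?_
    · rintro i (rfl | rfl | rfl | rfl)
      exacts [hsx k₁, hsx k₂, hsx k₃, hsx k₄]
    · rintro i (rfl | rfl | rfl | rfl)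
      exacts [hsz k₁, hsz k₂, hsz k₃, hsz k₄]
  set u : Fin 5 → ℝ := fun k => (b (f k) ⬝ᵥ x) * (b (f k) ⬝ᵥ z) with hu
  have hu0 : ∀ k, u k ≠ 0 := fun k => mul_ne_zero (hx _) (hz _)
  have hP : u 0 * u 1 * u 2 * u 3 * u 4 ≠ 0 := by
    have := hu0 0
    have := hu0 1
    have := hu0 2
    have := hu0 3
    have := hu0 4
    positivity
  have hPu : ∀ k, 0 < (u 0 * u 1 * u 2 * u 3 * u 4) * u k := by
    have hsq : ∀ k, 0 < u k ^ 2 := fun k => by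
      have := hu0 k
      positivity
    have g0 : 0 < (u 0 * u 1 * u 2 * u 3 * u 4) * u 0 := by
      have h := mul_pos (h4 1 2 3 4 (by decide) (by decide) (by decide) (by decide) (by decide)
        (by decide)) (hsq 0)
      have e : (u 0 * u 1 * u 2 * u 3 * u 4) * u 0 = u 1 * u 2 * u 3 * u 4 * u 0 ^ 2 := by ring
      rw [e]; exact h
    have g1 : 0 < (u 0 * u 1 * u 2 * u 3 * u 4) * u 1 := by
      have h := mul_pos (h4 0 2 3 4 (by decide) (by decide) (by decide) (by decide) (by decide)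
        (by decide)) (hsq 1)
      have e : (u 0 * u 1 * u 2 * u 3 * u 4) * u 1 = u 0 * u 2 * u 3 * u 4 * u 1 ^ 2 := by ring
      rw [e]; exact h
    have g2 : 0 < (u 0 * u 1 * u 2 * u 3 * u 4) * u 2 := by
      have h := mul_pos (h4 0 1 3 4 (by decide) (by decide) (by decide) (by decide) (by decide)
        (by decide)) (hsq 2)
      have e : (u 0 * u 1 * u 2 * u 3 * u 4) * u 2 = u 0 * u 1 * u 3 * u 4 * u 2 ^ 2 := by ring
      rw [e]; exact h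
    have g3 : 0 < (u 0 * u 1 * u 2 * u 3 * u 4) * u 3 := by
      have h := mul_pos (h4 0 1 2 4 (by decide) (by decide) (by decide) (by decide) (by decide)
        (by decide)) (hsq 3)
      have e : (u 0 * u 1 * u 2 * u 3 * u 4) * u 3 = u 0 * u 1 * u 2 * u 4 * u 3 ^ 2 := by ring
      rw [e]; exact h
    have g4 : 0 < (u 0 * u 1 * u 2 * u 3 * u 4) * u 4 := by
      have h := mul_pos (h4 0 1 2 3 (by decide) (by decide) (by decide) (by decide) (by decide)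
        (by decide)) (hsq 4)
      have e : (u 0 * u 1 * u 2 * u 3 * u 4) * u 4 = u 0 * u 1 * u 2 * u 3 * u 4 ^ 2 := by ring
      rw [e]; exact h
    intro k
    fin_cases k
    exacts [g0, g1, g2, g3, g4]
  rcases lt_or_gt_of_ne hP with hneg | hpos
  · -- replace `z` by `-z`
    refine up_card_aux b x (-z) hx ?_ ?_ f hf hsx ?_ ?_
    · intro i
      rw [dotProduct_neg]
      exact neg_ne_zero.2 (hz i)
    · rintro (h' | h')
      · apply h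
        right
        intro i
        have := h' i
        rw [dotProduct_neg] at this
        linarith
      · apply h
        left
        intro i
        have := h' i
        rw [dotProduct_neg] at this
        linarith
    · intro k
      obtain ⟨y, hy0, hy⟩ := hsz k
      refine ⟨-y, by rw [dotProduct_neg, hy0, neg_zero], fun j hj => ?_⟩
      rw [dotProduct_neg, dotProduct_neg, neg_mul_neg]
      exact hy j hj
    · intro k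
      have h1 := hPu k
      have h2 : u k < 0 := by
        by_contra hc
        push Not at hc
        have := mul_nonpos_of_nonpos_of_nonneg hneg.le hc
        linarith
      rw [dotProduct_neg]
      simp only [hu] at h2
      linarith
  · refine up_card_aux b x z hx hz h f hf hsx hsz ?_
    intro k
    exact (mul_pos_iff_of_pos_left hpos).1 (hPu k)

end

end Pool.Agent.Arr
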