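import Pool.Agent.Arr.SIDES
import Pool.Agent.Arr.UP
import Pool.Agent.Arr.CNT
import Pool.Agent.Arr.PERT
import Pool.Agent.Arr.CIRC

/-!
# The value of `a(k)`
-/

open scoped LinearAlgebra.Projectivization
open Matrix Set

namespace Pool.Agent.Arr

theorem sideSet_mono {ι : Type} [Fintype ι] {b b' : ι → V3} {x : V3}
    (h : ∀ i, Side b x i → Side b' x i) : SideSet b x ⊆ SideSet b' x := by
  classical
  unfold SideSet
  intro i hi
  rw [Finset.mem_filter] at hi ⊢
  exact ⟨hi.1, h i hi.2⟩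

theorem card_inter_le' {ι : Type} [Fintype ι] [inst : DecidableEq ι] (b : ι → V3) (hb : Gen b)
    (x z : V3) (hx : Off b x) (hz : Off b z) (h : ¬ SameSide b x z) :
    (SideSet b x ∩ SideSet b z).card ≤ 4 := by
  have h1 := card_inter_le b hb x z hx hz h
  have h2 : inst = fun p q => Classical.propDecidable (p = q) := Subsingleton.elim _ _
  subst h2
  exact h1

theorem upper (k : ℕ) {m : ℤ} (hm : m ∈ excessSet k) : m ≤ 2 * k * (k - 1) := by
  classical
  obtain ⟨A, hA, hS, F, hF, hFace, rfl⟩ := hm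
  obtain ⟨b, hb, hbA⟩ := exists_rep A hA hS
  have h3 : 3 ≤ Fintype.card (Fin A.card) := by
    rw [Fintype.card_fin]
    exact hA.three_le
  haveI : Nonempty (Fin A.card) := Fintype.card_pos_iff.1 (by omega)
  have hF' : ∀ i, ∃ x, Off b x ∧ F i = face b x := by
    intro i
    have := hFace i
    rw [← hbA, isFace_iff] at this
    exact this
  choose x hx hFx using hF'
  have hsides : ∀ i, sides A (F i) = (SideSet b (x i)).card := by
    intro i
    rw [hFx i, ← sides_face b hb h3 (hx i), hbA]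
  have hpair : ∀ i j, i ≠ j → (SideSet b (x i) ∩ SideSet b (x j)).card ≤ 4 := by
    intro i j hij
    have h1 : ¬ SameSide b (x i) (x j) := by
      rw [← face_eq_iff b (hx i) (hx j), ← hFx i, ← hFx j]
      exact fun h => hij (hF h)
    exact card_inter_le' b hb (x i) (x j) (hx i) (hx j) h1
  have hcount := sum_card_le k (fun i => SideSet b (x i)) hpair
  rw [Fintype.card_fin] at hcount
  simp only [hsides]
  linarith

theorem lower_of_data {k : ℕ} {E : Type} [Fintype E] (b : E → V3) (c : Fin k → V3)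
    (hE : Fintype.card E = 2 * k * (k - 1)) (hE3 : 3 ≤ Fintype.card E) (hoff : ∀ q, Off b (c q))
    (hside : ∀ q, 4 * (k - 1) ≤ (SideSet b (c q)).card)
    (hne : ∀ q r, q ≠ r → ¬ SameSide b (c q) (c r)) (hk : 1 ≤ k) :
    (2 * k * (k - 1) : ℤ) ∈ excessSet k := by
  classical
  obtain ⟨b', hb', hoff', hsign, hside'⟩ := perturb b c hoff
  haveI : Nonempty E := Fintype.card_pos_iff.1 (by omega)
  obtain ⟨hArr, hSimple, hcard⟩ := arr_isArrangement b' hb' hE3
  have hne' : ∀ q r, q ≠ r → ¬ SameSide b' (c q) (c r) := by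
    intro q r hqr h
    apply hne q r hqr
    rcases h with h | h
    · left
      intro i
      have h1 := hsign q i
      have h2 := hsign r i
      have h3 := h i
      have h4 := mul_pos (mul_pos h1 h2) h3
      have h5 : (b i ⬝ᵥ c q) * (b' i ⬝ᵥ c q) * ((b i ⬝ᵥ c r) * (b' i ⬝ᵥ c r)) *
          ((b' i ⬝ᵥ c q) * (b' i ⬝ᵥ c r)) =
          ((b' i ⬝ᵥ c q) * (b' i ⬝ᵥ c r)) ^ 2 * ((b i ⬝ᵥ c q) * (b i ⬝ᵥ c r)) := by ring
      rw [h5] at h4
      by_contra h6
      push Not at h6
      have := mul_nonpos_of_nonneg_of_nonpos (sq_nonneg ((b' i ⬝ᵥ c q) * (b' i ⬝ᵥ c r))) h6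
      linarith
    · right
      intro i
      have h1 := hsign q i
      have h2 := hsign r i
      have h3 := h i
      have h4 := mul_neg_of_pos_of_neg (mul_pos h1 h2) h3
      have h5 : (b i ⬝ᵥ c q) * (b' i ⬝ᵥ c q) * ((b i ⬝ᵥ c r) * (b' i ⬝ᵥ c r)) *
          ((b' i ⬝ᵥ c q) * (b' i ⬝ᵥ c r)) =
          ((b' i ⬝ᵥ c q) * (b' i ⬝ᵥ c r)) ^ 2 * ((b i ⬝ᵥ c q) * (b i ⬝ᵥ c r)) := by ring
      rw [h5] at h4
      by_contra h6
      push Not at h6
      have := mul_nonneg (sq_nonneg ((b' i ⬝ᵥ c q) * (b' i ⬝ᵥ c r))) h6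
      linarith
  have hinj : Function.Injective (fun q => face b' (c q)) := by
    intro q r h
    by_contra hqr
    exact hne' q r hqr ((face_eq_iff b' (hoff' q) (hoff' r)).1 h)
  have hface : ∀ q, IsFace (arr b') (face b' (c q)) := fun q =>
    (isFace_iff b' _).2 ⟨c q, hoff' q, rfl⟩
  have hmem : ((∑ q, (sides (arr b') (face b' (c q)) : ℤ)) - (arr b').card) ∈ excessSet k :=
    ⟨arr b', hArr, hSimple, fun q => face b' (c q), hinj, hface, rfl⟩
  have hup := upper k hmem
  have hlow : (4 * (k - 1) * k : ℤ) ≤ ∑ q, (sides (arr b') (face b' (c q)) : ℤ) := by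
    have h1 : ∀ q, (4 * (k - 1) : ℤ) ≤ (sides (arr b') (face b' (c q)) : ℤ) := by
      intro q
      rw [sides_face b' hb' hE3 (hoff' q)]
      have h2 : 4 * (k - 1) ≤ (SideSet b' (c q)).card :=
        (hside q).trans (Finset.card_le_card (sideSet_mono (hside' q)))
      have h3 : ((4 * (k - 1) : ℕ) : ℤ) ≤ ((SideSet b' (c q)).card : ℤ) := by exact_mod_cast h2
      push_cast [Nat.cast_sub hk] at h3
      exact h3
    calc (4 * (k - 1) * k : ℤ) = ∑ _q : Fin k, (4 * (k - 1) : ℤ) := by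
          rw [Finset.sum_const, Finset.card_univ, Fintype.card_fin, nsmul_eq_mul]
          ring
      _ ≤ _ := Finset.sum_le_sum fun q _ => h1 q
  have hcard' : ((arr b').card : ℤ) = 2 * k * (k - 1) := by
    rw [hcard, hE]
    push_cast [Nat.cast_sub hk]
    ring
  have heq : ((∑ q, (sides (arr b') (face b' (c q)) : ℤ)) - (arr b').card) = 2 * k * (k - 1) := by
    apply le_antisymm hup
    rw [hcard']
    linarith
  rw [heq] at hmem
  exact hmem

/-- the coordinate triangle -/
theorem lower_one : (0 : ℤ) ∈ excessSet 1 := by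
  classical
  let b : Fin 3 → V3 := fun i => Pi.single i 1
  have hdot : ∀ (i : Fin 3) (x : V3), b i ⬝ᵥ x = x i := by
    intro i x
    simp [b]
  have hb : Gen b := by
    intro i j l hij hil hjl x hi hj hl
    rw [hdot] at hi hj hl
    funext m
    fin_cases i <;> fin_cases j <;> fin_cases l <;> fin_cases m <;> simp_all
  have h3 : 3 ≤ Fintype.card (Fin 3) := by simp
  obtain ⟨hArr, hSimple, hcard⟩ := arr_isArrangement b hb h3
  have hoff : Off b (fun _ => 1) := by
    intro i
    rw [hdot]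
    exact one_ne_zero
  refine ⟨arr b, hArr, hSimple, fun _ => face b (fun _ => 1), fun _ _ _ => Subsingleton.elim _ _,
    fun _ => (isFace_iff b _).2 ⟨_, hoff, rfl⟩, ?_⟩
  have hs : SideSet b (fun _ => 1) = Finset.univ := by
    unfold SideSet
    rw [Finset.filter_eq_self]
    intro i _
    refine ⟨fun j => if j = i then 0 else 1, by rw [hdot]; simp, fun j hj => ?_⟩
    rw [hdot, hdot, if_neg hj]
    norm_num
  have h4 := sides_face b hb h3 hoff
  show (0 : ℤ) = (∑ _i : Fin 1, (sides (arr b) (face b fun _ => 1) : ℤ)) - ((arr b).card : ℤ)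
  rw [h4, hs, hcard]
  simp

theorem lower (k : ℕ) (hk : 1 ≤ k) : (2 * k * (k - 1) : ℤ) ∈ excessSet k := by
  rcases Nat.lt_or_ge 1 k with h1 | h1
  · obtain ⟨E, hE, b, c, hcard, hoff, hside, hne⟩ := exists_tangents k
    refine lower_of_data b c hcard ?_ hoff hside hne hk
    rw [hcard]
    obtain ⟨l, rfl⟩ : ∃ l, k = l + 2 := ⟨k - 2, by omega⟩
    have : 2 * (l + 2) * (l + 2 - 1) = 2 * ((l + 2) * (l + 1)) := by
      rw [show l + 2 - 1 = l + 1 by omega]; ring
    rw [this]
    nlinarith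
  · have : k = 1 := le_antisymm h1 hk
    subst this
    have := lower_one
    simpa using this

end Pool.Agent.Arr
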