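import Mathlib
import Pool.Agent.Arr.Defs
import Pool.Agent.Arr.UP

/-!
# Representation of simple arrangements by vectors
-/

open scoped LinearAlgebra.Projectivization
open Matrix Set

namespace Pool.Agent.Arr

theorem rep_mem_lineOf (b : V3) {x : V3} (hx : x ≠ 0) :
    Projectivization.mk ℝ x hx ∈ lineOf b ↔ b ⬝ᵥ x = 0 := by
  obtain ⟨a, ha⟩ := Projectivization.exists_smul_eq_mk_rep ℝ x hx
  have h1 : b ⬝ᵥ (Projectivization.mk ℝ x hx).rep = (a : ℝ) * (b ⬝ᵥ x) := by
    rw [← ha, Units.smul_def, dotProduct_smul, smul_eq_mul]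
  change b ⬝ᵥ (Projectivization.mk ℝ x hx).rep = 0 ↔ _
  rw [h1]
  constructor
  · intro h
    exact (mul_eq_zero.1 h).resolve_left a.ne_zero
  · intro h
    rw [h, mul_zero]

section

variable {ι : Type} [Fintype ι]

theorem rep_exists_third (hι : 3 ≤ Fintype.card ι) (i j : ι) : ∃ l, i ≠ l ∧ j ≠ l := by
  classical
  have h : ({i, j} : Finset ι).card < (Finset.univ : Finset ι).card := by
    have := Finset.card_le_two (a := i) (b := j)
    rw [Finset.card_univ]
    omega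
  obtain ⟨l, -, hl⟩ := Finset.exists_mem_notMem_of_card_lt_card h
  simp only [Finset.mem_insert, Finset.mem_singleton, not_or] at hl
  exact ⟨l, fun e => hl.1 e.symm, fun e => hl.2 e.symm⟩

theorem gen_injective (b : ι → V3) (hb : Gen b) (hι : 3 ≤ Fintype.card ι) :
    Function.Injective (fun i => lineOf (b i)) := by
  intro i j hij
  by_contra hne
  obtain ⟨l, hil, hjl⟩ := rep_exists_third hι i j
  obtain ⟨x, hx, e1, -, e2⟩ := up_exists_zero (u := b i) (v := b i) (w := b l) (by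
    simp only [upDet]; ring)
  have h1 : Projectivization.mk ℝ x hx ∈ lineOf (b i) := (rep_mem_lineOf _ hx).2 e1
  have h2 : Projectivization.mk ℝ x hx ∈ lineOf (b j) := by
    have h : lineOf (b i) = lineOf (b j) := hij
    rw [← h]; exact h1
  exact hx (hb i j l hne hil hjl x e1 ((rep_mem_lineOf _ hx).1 h2) e2)

theorem rep_ne_zero (b : ι → V3) (hb : Gen b) (hι : 3 ≤ Fintype.card ι) (i : ι) : b i ≠ 0 := by
  intro h0
  obtain ⟨j, hij, -⟩ := rep_exists_third hι i i
  obtain ⟨l, hil, hjl⟩ := rep_exists_third hι i j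
  obtain ⟨x, hx, e1, e2, e3⟩ := up_exists_zero (u := b i) (v := b j) (w := b l) (by
    rw [h0]; simp [upDet])
  exact hx (hb i j l hij hil hjl x e1 e2 e3)

theorem arr_isArrangement (b : ι → V3) (hb : Gen b) (hι : 3 ≤ Fintype.card ι) :
    IsArrangement (arr b) ∧ IsSimple (arr b) ∧ (arr b).card = Fintype.card ι := by
  classical
  have hcard : (arr b).card = Fintype.card ι := by
    rw [arr, Finset.card_image_of_injective _ (gen_injective b hb hι), Finset.card_univ]
  have hmem : ∀ ℓ, ℓ ∈ arr b ↔ ∃ i, lineOf (b i) = ℓ := by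
    intro ℓ
    simp [arr]
  refine ⟨⟨?_, ?_, ?_⟩, ?_, hcard⟩
  · intro ℓ hℓ
    obtain ⟨i, rfl⟩ := (hmem ℓ).1 hℓ
    exact ⟨b i, rep_ne_zero b hb hι i, rfl⟩
  · rw [hcard]; exact hι
  · rintro ⟨p, hp⟩
    obtain ⟨i, j, l, hij, hil, hjl⟩ := Fintype.two_lt_card_iff.1 (show 2 < Fintype.card ι from hι)
    exact p.rep_nonzero (hb i j l hij hil hjl p.rep (hp _ ((hmem _).2 ⟨i, rfl⟩))
      (hp _ ((hmem _).2 ⟨j, rfl⟩)) (hp _ ((hmem _).2 ⟨l, rfl⟩)))
  · intro ℓ₁ h1 ℓ₂ h2 ℓ₃ h3 h12 h13 h23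
    obtain ⟨i, rfl⟩ := (hmem _).1 h1
    obtain ⟨j, rfl⟩ := (hmem _).1 h2
    obtain ⟨l, rfl⟩ := (hmem _).1 h3
    rintro ⟨p, p1, p2, p3⟩
    exact p.rep_nonzero (hb i j l (fun e => h12 (by rw [e])) (fun e => h13 (by rw [e]))
      (fun e => h23 (by rw [e])) p.rep p1 p2 p3)

end

theorem exists_rep (A : Finset (Set P2)) (hA : IsArrangement A) (hS : IsSimple A) :
    ∃ b : Fin A.card → V3, Gen b ∧ arr b = A := by
  classical
  have h : ∀ i : Fin A.card, ∃ a : V3, ((A.equivFin.symm i : Set P2)) = lineOf a := by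
    intro i
    obtain ⟨a, -, ha⟩ := hA.isLine _ (A.equivFin.symm i).2
    exact ⟨a, ha⟩
  choose b hb using h
  refine ⟨b, ?_, ?_⟩
  · intro i j l hij hil hjl x e1 e2 e3
    by_contra hx
    have hinj : ∀ {i j : Fin A.card}, i ≠ j →
        (A.equivFin.symm i : Set P2) ≠ (A.equivFin.symm j : Set P2) := by
      intro i j hij e
      exact hij (A.equivFin.symm.injective (Subtype.ext e))
    apply hS _ (A.equivFin.symm i).2 _ (A.equivFin.symm j).2 _ (A.equivFin.symm l).2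
      (hinj hij) (hinj hil) (hinj hjl)
    refine ⟨Projectivization.mk ℝ x hx, ?_, ?_, ?_⟩
    · rw [hb i]; exact (rep_mem_lineOf _ hx).2 e1
    · rw [hb j]; exact (rep_mem_lineOf _ hx).2 e2
    · rw [hb l]; exact (rep_mem_lineOf _ hx).2 e3
  · ext ℓ
    simp only [arr, Finset.mem_image, Finset.mem_univ, true_and]
    constructor
    · rintro ⟨i, rfl⟩
      rw [← hb i]
      exact (A.equivFin.symm i).2
    · intro hℓ
      refine ⟨A.equivFin ⟨ℓ, hℓ⟩, ?_⟩
      rw [← hb, Equiv.symm_apply_apply]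

end Pool.Agent.Arr
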