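import Pool.Agent.Arr.FACE
import Pool.Agent.Arr.REP

/-!
# The number of sides of a face
-/

open scoped LinearAlgebra.Projectivization
open Matrix Set

namespace Pool.Agent.Arr

variable {ι : Type} [Fintype ι]

/-- points of the line `i` in the closure of a face -/
theorem mem_closure_face [Nonempty ι] (b : ι → V3) {x y : V3} (hx : Off b x) (hy : y ≠ 0) {i : ι}
    (hi : b i ⬝ᵥ y = 0) (hj : ∀ j, j ≠ i → b j ⬝ᵥ y ≠ 0) :
    Projectivization.mk ℝ y hy ∈ closure (face b x) ↔ Same (· ≠ i) b x y := by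
  constructor
  · intro h
    apply same_of_pairs
    intro j l hjne hlne
    let G : P2 → ℝ := fun p => (b j ⬝ᵥ p.rep) * (b l ⬝ᵥ p.rep) / (p.rep ⬝ᵥ p.rep)
    have hG : Continuous G := continuous_prod (b j) (b l)
    have hGy : G (Projectivization.mk ℝ y hy) = (b j ⬝ᵥ y) * (b l ⬝ᵥ y) / (y ⬝ᵥ y) :=
      prod_mk (b j) (b l) hy
    have hyy : 0 < y ⬝ᵥ y := dotProduct_self_pos' hy
    have hopen : IsOpen {q : P2 | 0 < G q * G (Projectivization.mk ℝ y hy)} :=
      isOpen_lt continuous_const (hG.mul continuous_const)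
    have hmem : Projectivization.mk ℝ y hy ∈ {q : P2 | 0 < G q * G (Projectivization.mk ℝ y hy)} := by
      have : G (Projectivization.mk ℝ y hy) ≠ 0 := by
        rw [hGy]
        exact div_ne_zero (mul_ne_zero (hj j hjne) (hj l hlne)) hyy.ne'
      exact mul_self_pos.2 this
    obtain ⟨q, hq1, hq2⟩ := mem_closure_iff.1 h _ hopen hmem
    have hq3 : SameSide b x q.rep := by
      rw [← mk_mem_face_iff b hx q.rep_nonzero, mk_rep']
      exact hq2
    have hGq : 0 < G q * G (Projectivization.mk ℝ y hy) := hq1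
    rw [hGy] at hGq
    have hqq : 0 < q.rep ⬝ᵥ q.rep := dotProduct_self_pos' q.rep_nonzero
    have h5 : 0 < ((b j ⬝ᵥ q.rep) * (b l ⬝ᵥ q.rep)) * ((b j ⬝ᵥ y) * (b l ⬝ᵥ y)) := by
      have h6 := mul_pos hGq (mul_pos hqq hyy)
      have h7 : (b j ⬝ᵥ q.rep) * (b l ⬝ᵥ q.rep) / (q.rep ⬝ᵥ q.rep) *
          ((b j ⬝ᵥ y) * (b l ⬝ᵥ y) / (y ⬝ᵥ y)) * ((q.rep ⬝ᵥ q.rep) * (y ⬝ᵥ y)) =
          ((b j ⬝ᵥ q.rep) * (b l ⬝ᵥ q.rep)) * ((b j ⬝ᵥ y) * (b l ⬝ᵥ y)) := by
        field_simp
      rw [← h7]
      exact h6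
    have h8 : 0 < ((b j ⬝ᵥ x) * (b l ⬝ᵥ x)) * ((b j ⬝ᵥ q.rep) * (b l ⬝ᵥ q.rep)) := by
      have : Same (fun _ => True) b x q.rep := by
        rcases hq3 with h | h
        · left; intro j _; exact h j
        · right; intro j _; exact h j
      exact pairs_of_same this trivial trivial
    have h9 := mul_pos h8 h5
    have h10 : ((b j ⬝ᵥ x) * (b l ⬝ᵥ x)) * ((b j ⬝ᵥ q.rep) * (b l ⬝ᵥ q.rep)) *
        (((b j ⬝ᵥ q.rep) * (b l ⬝ᵥ q.rep)) * ((b j ⬝ᵥ y) * (b l ⬝ᵥ y))) =
        ((b j ⬝ᵥ q.rep) * (b l ⬝ᵥ q.rep)) ^ 2 *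
          (((b j ⬝ᵥ x) * (b l ⬝ᵥ x)) * ((b j ⬝ᵥ y) * (b l ⬝ᵥ y))) := by ring
    rw [h10] at h9
    by_contra h11
    push Not at h11
    have := mul_nonpos_of_nonneg_of_nonpos
      (sq_nonneg ((b j ⬝ᵥ q.rep) * (b l ⬝ᵥ q.rep))) h11
    linarith
  · -- the reverse direction
    have key : ∀ (y : V3) (hy : y ≠ 0), b i ⬝ᵥ y = 0 →
        (∀ j, j ≠ i → 0 < (b j ⬝ᵥ x) * (b j ⬝ᵥ y)) →
        Projectivization.mk ℝ y hy ∈ closure (face b x) := by
      intro y hy hi hpos
      have hoff : ∀ t : ℝ, 0 < t → ∀ j, 0 < (b j ⬝ᵥ x) * (b j ⬝ᵥ (y + t • x)) := by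
        intro t ht j
        rw [dotProduct_add, dotProduct_smul, smul_eq_mul]
        have h1 : 0 < (b j ⬝ᵥ x) * (b j ⬝ᵥ x) := mul_self_pos.2 (hx j)
        have h2 := mul_pos ht h1
        by_cases hji : j = i
        · subst hji
          rw [hi]
          nlinarith
        · have := hpos j hji
          nlinarith
      have hne : ∀ t : ℝ, 0 ≤ t → y + t • x ≠ 0 := by
        intro t ht h
        rcases ht.eq_or_lt with h0 | h0
        · rw [← h0, zero_smul, add_zero] at h
          exact hy h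
        · have := hoff t h0 (Classical.arbitrary ι)
          rw [h, dotProduct_zero, mul_zero] at this
          exact lt_irrefl _ this
      let u : {t : ℝ // 0 ≤ t} → P2 := fun t => Projectivization.mk ℝ (y + t.1 • x) (hne t.1 t.2)
      have hu : Continuous u := by
        have h1 : Continuous (fun t : {t : ℝ // 0 ≤ t} =>
            (⟨y + t.1 • x, hne t.1 t.2⟩ : {v : Fin 3 → ℝ // v ≠ 0})) := by
          apply Continuous.subtype_mk
          fun_prop
        exact continuous_mk.comp h1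
      have h0 : u ⟨0, le_refl _⟩ = Projectivization.mk ℝ y hy := by
        show Projectivization.mk ℝ (y + (0 : ℝ) • x) _ = Projectivization.mk ℝ y hy
        rw [Projectivization.mk_eq_mk_iff']
        exact ⟨1, by simp⟩
      rw [← h0]
      have hcl : (⟨0, le_refl _⟩ : {t : ℝ // 0 ≤ t}) ∈ closure {t : {t : ℝ // 0 ≤ t} | 0 < t.1} := by
        rw [mem_closure_iff_seq_limit]
        refine ⟨fun n => ⟨1 / ((n : ℝ) + 1), by positivity⟩, fun n => ?_, ?_⟩
        · show (0 : ℝ) < 1 / ((n : ℝ) + 1)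
          positivity
        · rw [tendsto_subtype_rng]
          exact tendsto_one_div_add_atTop_nhds_zero_nat
      have := map_mem_closure hu hcl (t := face b x) (by
        intro t ht
        have ht' : (0 : ℝ) < t.1 := ht
        show Projectivization.mk ℝ (y + t.1 • x) (hne t.1 t.2) ∈ face b x
        rw [mk_mem_face_iff b hx]
        left
        exact hoff t.1 ht')
      exact this
    intro h
    rcases h with h | h
    · exact key y hy hi h
    · have hy' : -y ≠ 0 := neg_ne_zero.2 hy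
      rw [← mk_neg hy hy']
      apply key (-y) hy'
      · rw [dotProduct_neg, hi, neg_zero]
      · intro j hjne
        rw [dotProduct_neg]
        have := h j hjne
        linarith
where
  dotProduct_self_pos' {y : V3} (hy : y ≠ 0) : 0 < y ⬝ᵥ y := by
    have h1 : 0 ≤ y ⬝ᵥ y := by
      simp only [dotProduct]
      exact Finset.sum_nonneg fun i _ => mul_self_nonneg _
    have h2 : y ⬝ᵥ y ≠ 0 := by
      intro h
      exact hy (dotProduct_self_eq_zero.1 h)
    exact lt_of_le_of_ne h1 h2.symm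

section edges

variable (b : ι → V3) (hinj : Function.Injective (fun i => lineOf (b i)))

include hinj in
theorem mem_openPart_mk {y : V3} (hy : y ≠ 0) (i : ι) :
    Projectivization.mk ℝ y hy ∈ openPart (arr b) (lineOf (b i)) ↔
      b i ⬝ᵥ y = 0 ∧ ∀ j, j ≠ i → b j ⬝ᵥ y ≠ 0 := by
  unfold openPart arr
  simp only [Finset.mem_image, Finset.mem_univ, true_and, mem_setOf_eq, forall_exists_index,
    forall_apply_eq_imp_iff, mem_lineOf_mk]
  constructor
  · rintro ⟨h1, h2⟩
    exact ⟨h1, fun j hj => h2 j fun h => hj (hinj h)⟩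
  · rintro ⟨h1, h2⟩
    refine ⟨h1, fun j hj => h2 j ?_⟩
    rintro rfl
    exact hj rfl

include hinj in
theorem mem_edge_iff {y y' : V3} (hy : y ≠ 0) (hy' : y' ≠ 0) {i : ι} (hi : b i ⬝ᵥ y = 0)
    (hj : ∀ j, j ≠ i → b j ⬝ᵥ y ≠ 0) (hne : ∃ j, j ≠ i) :
    Projectivization.mk ℝ y' hy' ∈ connectedComponentIn (openPart (arr b) (lineOf (b i)))
      (Projectivization.mk ℝ y hy) ↔ b i ⬝ᵥ y' = 0 ∧ Same (· ≠ i) b y y' := by
  have hyO : Projectivization.mk ℝ y hy ∈ openPart (arr b) (lineOf (b i)) :=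
    (mem_openPart_mk b hinj hy i).2 ⟨hi, hj⟩
  constructor
  · intro h
    have h1 := connectedComponentIn_subset _ _ h
    rw [mem_openPart_mk b hinj] at h1
    refine ⟨h1.1, same_of_pairs fun j l hjn hln => ?_⟩
    have hX : IsPreconnected (connectedComponentIn (openPart (arr b) (lineOf (b i)))
        (Projectivization.mk ℝ y hy)) := isPreconnected_connectedComponentIn
    have hnot : ∀ j, j ≠ i → ∀ p ∈ connectedComponentIn (openPart (arr b) (lineOf (b i)))
        (Projectivization.mk ℝ y hy), p ∉ lineOf (b j) := by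
      intro j hjn p hp
      have h2 := (connectedComponentIn_subset _ _ hp).2 (lineOf (b j))
        (by unfold arr; exact Finset.mem_image_of_mem _ (Finset.mem_univ j))
        (fun h => hjn (hinj h))
      exact h2
    exact sign_const hX (hnot j hjn) (hnot l hln) hy hy' (mem_connectedComponentIn hyO) h
  · rintro ⟨h1, h2⟩
    have key : ∀ (z : V3) (hz : z ≠ 0), b i ⬝ᵥ z = 0 → (∀ j, j ≠ i → 0 < (b j ⬝ᵥ y) * (b j ⬝ᵥ z)) →
        Projectivization.mk ℝ z hz ∈ connectedComponentIn (openPart (arr b) (lineOf (b i)))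
      (Projectivization.mk ℝ y hy) := by
      intro z hz hzi hpos
      apply segment_component hy hz
      intro t ht
      have h3 : ∀ j, j ≠ i → b j ⬝ᵥ ((1 - t) • y + t • z) ≠ 0 := by
        intro j hjn h4
        rw [dotProduct_add, dotProduct_smul, dotProduct_smul, smul_eq_mul, smul_eq_mul] at h4
        have h5 := hpos j hjn
        have h6 : 0 < (b j ⬝ᵥ y) * (b j ⬝ᵥ y) := mul_self_pos.2 (hj j hjn)
        have h7 : (b j ⬝ᵥ y) * ((1 - t) * (b j ⬝ᵥ y) + t * (b j ⬝ᵥ z)) = 0 := by rw [h4, mul_zero]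
        have h8 : (1 - t) * ((b j ⬝ᵥ y) * (b j ⬝ᵥ y)) + t * ((b j ⬝ᵥ y) * (b j ⬝ᵥ z)) = 0 := by
          rw [← h7]; ring
        rcases ht.1.eq_or_lt with h0 | h0
        · rw [← h0] at h8
          simp at h8
          exact hj j hjn h8
        · have h9 : 0 < t * ((b j ⬝ᵥ y) * (b j ⬝ᵥ z)) := mul_pos h0 h5
          have h10 : 0 ≤ (1 - t) * ((b j ⬝ᵥ y) * (b j ⬝ᵥ y)) :=
            mul_nonneg (by linarith [ht.2]) h6.le
          linarith
      obtain ⟨j₀, hj₀⟩ := hne
      have hz0 : (1 - t) • y + t • z ≠ 0 := by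
        intro h
        apply h3 j₀ hj₀
        rw [h, dotProduct_zero]
      refine ⟨hz0, ?_⟩
      rw [mem_openPart_mk b hinj]
      refine ⟨?_, h3⟩
      rw [dotProduct_add, dotProduct_smul, dotProduct_smul, hi, hzi]
      simp
    rcases h2 with h2 | h2
    · exact key y' hy' h1 h2
    · have hy'' : -y' ≠ 0 := neg_ne_zero.2 hy'
      rw [← mk_neg hy' hy'']
      apply key (-y') hy''
      · rw [dotProduct_neg, h1, neg_zero]
      · intro j hjne
        rw [dotProduct_neg]
        have := h2 j hjne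
        linarith

end edges

theorem sides_face (b : ι → V3) (hb : Gen b) (hι : 3 ≤ Fintype.card ι) {x : V3} (hx : Off b x) :
    sides (arr b) (face b x) = (SideSet b x).card := by
  classical
  have hinj := gen_injective b hb hι
  haveI : Nonempty ι := Fintype.card_pos_iff.1 (by omega)
  have hne : ∀ i : ι, ∃ j, j ≠ i := by
    intro i
    have : Nontrivial ι := Fintype.one_lt_card_iff_nontrivial.1 (by omega)
    exact exists_ne i
  have hex : ∀ i, ∃ y : V3, i ∈ SideSet b x →
      b i ⬝ᵥ y = 0 ∧ ∀ j, j ≠ i → 0 < (b j ⬝ᵥ x) * (b j ⬝ᵥ y) := by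
    intro i
    by_cases hi : i ∈ SideSet b x
    · have hi' := hi
      unfold SideSet at hi'
      rw [Finset.mem_filter] at hi'
      obtain ⟨y, hy⟩ := hi'.2
      exact ⟨y, fun _ => hy⟩
    · exact ⟨0, fun h => absurd h hi⟩
  choose w hw using hex
  have hw0 : ∀ i ∈ SideSet b x, w i ≠ 0 := by
    intro i hi h
    obtain ⟨j, hj⟩ := hne i
    have := (hw i hi).2 j hj
    rw [h, dotProduct_zero, mul_zero] at this
    exact lt_irrefl _ this
  have hwj : ∀ i ∈ SideSet b x, ∀ j, j ≠ i → b j ⬝ᵥ w i ≠ 0 := by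
    intro i hi j hj h
    have := (hw i hi).2 j hj
    rw [h, mul_zero] at this
    exact lt_irrefl _ this
  let φ : ι → Set P2 := fun i => if h : w i ≠ 0 then
    connectedComponentIn (openPart (arr b) (lineOf (b i))) (Projectivization.mk ℝ (w i) h) else ∅
  have hφ : ∀ i (hi : i ∈ SideSet b x), φ i = connectedComponentIn
      (openPart (arr b) (lineOf (b i))) (Projectivization.mk ℝ (w i) (hw0 i hi)) := by
    intro i hi
    simp only [φ]
    rw [dif_pos (hw0 i hi)]
  have hmemO : ∀ i (hi : i ∈ SideSet b x), Projectivization.mk ℝ (w i) (hw0 i hi) ∈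
      openPart (arr b) (lineOf (b i)) := fun i hi =>
    (mem_openPart_mk b hinj (hw0 i hi) i).2 ⟨(hw i hi).1, hwj i hi⟩
  have himage : boundaryEdges (arr b) (face b x) = φ '' (↑(SideSet b x) : Set ι) := by
    ext e
    constructor
    · rintro ⟨⟨ℓ, hℓ, p, hp, rfl⟩, hfr⟩
      unfold arr at hℓ
      rw [Finset.mem_image] at hℓ
      obtain ⟨i, -, rfl⟩ := hℓ
      have hpm := mk_rep' p
      set y := p.rep with hy
      have hy0 : y ≠ 0 := p.rep_nonzero
      rw [← hpm] at hp hfr ⊢
      have hO := (mem_openPart_mk b hinj hy0 i).1 hp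
      have hcl : Projectivization.mk ℝ y hy0 ∈ closure (face b x) :=
        frontier_subset_closure (hfr (mem_connectedComponentIn hp))
      rw [mem_closure_face b hx hy0 hO.1 hO.2] at hcl
      have hi : i ∈ SideSet b x := by
        unfold SideSet
        rw [Finset.mem_filter]
        refine ⟨Finset.mem_univ _, ?_⟩
        rcases hcl with h | h
        · exact ⟨y, hO.1, h⟩
        · refine ⟨-y, by rw [dotProduct_neg, hO.1, neg_zero], fun j hj => ?_⟩
          rw [dotProduct_neg]
          have := h j hj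
          linarith
      refine ⟨i, hi, ?_⟩
      rw [hφ i hi]
      symm
      apply connectedComponentIn_eq
      rw [mem_edge_iff b hinj hy0 (hw0 i hi) hO.1 hO.2 (hne i)]
      refine ⟨(hw i hi).1, ?_⟩
      exact same_trans (same_symm hcl) (Or.inl (hw i hi).2)
    · rintro ⟨i, hi, rfl⟩
      have hi : i ∈ SideSet b x := hi
      refine ⟨⟨lineOf (b i), ?_, ?_⟩, ?_⟩
      · unfold arr
        exact Finset.mem_image_of_mem _ (Finset.mem_univ i)
      · rw [hφ i hi]
        exact ⟨_, hmemO i hi, rfl⟩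
      · rw [hφ i hi]
        intro p hp
        have hpm := mk_rep' p
        set y := p.rep with hy
        have hy0 : y ≠ 0 := p.rep_nonzero
        rw [← hpm] at hp ⊢
        have hO := (mem_openPart_mk b hinj hy0 i).1 (connectedComponentIn_subset _ _ hp)
        rw [mem_edge_iff b hinj (hw0 i hi) hy0 (hw i hi).1 (hwj i hi) (hne i)] at hp
        refine ⟨?_, ?_⟩
        · rw [mem_closure_face b hx hy0 hO.1 hO.2]
          exact same_trans (Or.inl (hw i hi).2) hp.2
        · intro hint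
          have h1 := face_subset b x (interior_subset hint)
          have h2 := (mem_compl_mk b hy0).1 h1
          exact h2 i hO.1
  have hinjφ : InjOn φ (↑(SideSet b x) : Set ι) := by
    intro i hi i' hi' h
    have hi : i ∈ SideSet b x := hi
    have hi' : i' ∈ SideSet b x := hi'
    by_contra hne'
    have h1 : Projectivization.mk ℝ (w i) (hw0 i hi) ∈ φ i' := by
      rw [← h, hφ i hi]
      exact mem_connectedComponentIn (hmemO i hi)
    rw [hφ i' hi'] at h1
    have h2 := (mem_openPart_mk b hinj (hw0 i hi) i').1 (connectedComponentIn_subset _ _ h1)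
    exact hwj i hi i' (fun h => hne' h.symm) h2.1
  unfold sides
  rw [himage, ncard_image_of_injOn hinjφ, ncard_coe_finset]

end Pool.Agent.Arr
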