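import Pool.Agent.Arr.Defs

/-!
# Continuity, signs on connected sets, segments
-/

open scoped LinearAlgebra.Projectivization
open Matrix Set

namespace Pool.Agent.Arr

theorem continuous_mk :
    Continuous (fun v : {v : Fin 3 → ℝ // v ≠ 0} => Projectivization.mk ℝ v.1 v.2) :=
  continuous_coinduced_rng

theorem mem_lineOf_mk (b : V3) {x : V3} (hx : x ≠ 0) :
    Projectivization.mk ℝ x hx ∈ lineOf b ↔ b ⬝ᵥ x = 0 := by
  obtain ⟨c, hc⟩ := Projectivization.exists_smul_eq_mk_rep ℝ x hx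
  have hc0 : (c : ℝ) ≠ 0 := c.ne_zero
  have h1 : (Projectivization.mk ℝ x hx).rep = (c : ℝ) • x := hc.symm
  show b ⬝ᵥ (Projectivization.mk ℝ x hx).rep = 0 ↔ _
  rw [h1, dotProduct_smul, smul_eq_mul]
  constructor
  · intro h
    exact (mul_eq_zero.1 h).resolve_left hc0
  · intro h
    rw [h, mul_zero]

theorem dotProduct_self_pos'' {y : V3} (hy : y ≠ 0) : 0 < y ⬝ᵥ y := by
  have h1 : 0 ≤ y ⬝ᵥ y := by
    simp only [dotProduct]
    exact Finset.sum_nonneg fun i _ => mul_self_nonneg _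
  have h2 : y ⬝ᵥ y ≠ 0 := by
    intro h
    exact hy (dotProduct_self_eq_zero.1 h)
  exact lt_of_le_of_ne h1 h2.symm

theorem prod_mk (b c : V3) {x : V3} (hx : x ≠ 0) :
    (b ⬝ᵥ (Projectivization.mk ℝ x hx).rep) * (c ⬝ᵥ (Projectivization.mk ℝ x hx).rep) /
      ((Projectivization.mk ℝ x hx).rep ⬝ᵥ (Projectivization.mk ℝ x hx).rep) =
    (b ⬝ᵥ x) * (c ⬝ᵥ x) / (x ⬝ᵥ x) := by
  obtain ⟨u, hu⟩ := Projectivization.exists_smul_eq_mk_rep ℝ x hx
  have hu0 : (u : ℝ) ≠ 0 := u.ne_zero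
  have h1 : (Projectivization.mk ℝ x hx).rep = (u : ℝ) • x := hu.symm
  have hxx := dotProduct_self_pos'' hx
  rw [h1, dotProduct_smul, dotProduct_smul, dotProduct_smul, smul_dotProduct]
  simp only [smul_eq_mul]
  rw [div_eq_div_iff (mul_ne_zero hu0 (mul_ne_zero hu0 hxx.ne')) hxx.ne']
  ring

/-- the function `(b·p)(c·p)/|p|²` is a continuous function on the plane -/
theorem continuous_prod (b c : V3) :
    Continuous (fun p : P2 => (b ⬝ᵥ p.rep) * (c ⬝ᵥ p.rep) / (p.rep ⬝ᵥ p.rep)) := by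
  rw [continuous_coinduced_dom]
  have h1 : ((fun p : P2 => (b ⬝ᵥ p.rep) * (c ⬝ᵥ p.rep) / (p.rep ⬝ᵥ p.rep)) ∘
      (fun v : {v : Fin 3 → ℝ // v ≠ 0} => Projectivization.mk ℝ v.1 v.2)) =
      fun v : {v : Fin 3 → ℝ // v ≠ 0} => (b ⬝ᵥ v.1) * (c ⬝ᵥ v.1) / (v.1 ⬝ᵥ v.1) := by
    funext v
    exact prod_mk b c v.2
  rw [h1]
  have hd : ∀ w : V3, Continuous (fun v : {v : Fin 3 → ℝ // v ≠ 0} => w ⬝ᵥ v.1) := by
    intro w
    simp only [dotProduct]
    exact continuous_finset_sum _ fun i _ =>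
      continuous_const.mul ((continuous_apply i).comp continuous_subtype_val)
  have hd2 : Continuous (fun v : {v : Fin 3 → ℝ // v ≠ 0} => v.1 ⬝ᵥ v.1) := by
    simp only [dotProduct]
    exact continuous_finset_sum _ fun i _ =>
      ((continuous_apply i).comp continuous_subtype_val).mul
        ((continuous_apply i).comp continuous_subtype_val)
  exact ((hd b).mul (hd c)).div hd2 fun v => (dotProduct_self_pos'' v.2).ne'

/-- the sign of `(b·p)(c·p)` is constant on connected sets without zeros -/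
theorem sign_const {X : Set P2} (hX : IsPreconnected X) {b c : V3}
    (hb : ∀ p ∈ X, p ∉ lineOf b) (hc : ∀ p ∈ X, p ∉ lineOf c) {x y : V3} (hx : x ≠ 0) (hy : y ≠ 0)
    (hxX : Projectivization.mk ℝ x hx ∈ X) (hyX : Projectivization.mk ℝ y hy ∈ X) :
    0 < ((b ⬝ᵥ x) * (c ⬝ᵥ x)) * ((b ⬝ᵥ y) * (c ⬝ᵥ y)) := by
  let G : P2 → ℝ := fun p => (b ⬝ᵥ p.rep) * (c ⬝ᵥ p.rep) / (p.rep ⬝ᵥ p.rep)
  have hG : Continuous G := continuous_prod b c
  have hne : ∀ p ∈ X, G p ≠ 0 := by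
    intro p hp
    have h1 : b ⬝ᵥ p.rep ≠ 0 := hb p hp
    have h2 : c ⬝ᵥ p.rep ≠ 0 := hc p hp
    exact div_ne_zero (mul_ne_zero h1 h2) (dotProduct_self_pos'' p.rep_nonzero).ne'
  have hGx : G (Projectivization.mk ℝ x hx) = (b ⬝ᵥ x) * (c ⬝ᵥ x) / (x ⬝ᵥ x) := prod_mk b c hx
  have hGy : G (Projectivization.mk ℝ y hy) = (b ⬝ᵥ y) * (c ⬝ᵥ y) / (y ⬝ᵥ y) := prod_mk b c hy
  have hxx := dotProduct_self_pos'' hx
  have hyy := dotProduct_self_pos'' hy
  have hpos : 0 < G (Projectivization.mk ℝ x hx) * G (Projectivization.mk ℝ y hy) := by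
    have h1 := hne _ hxX
    have h2 := hne _ hyX
    rcases lt_or_gt_of_ne h1 with h1 | h1 <;> rcases lt_or_gt_of_ne h2 with h2 | h2
    · exact mul_pos_of_neg_of_neg h1 h2
    · exfalso
      obtain ⟨p, hp, hp0⟩ := hX.intermediate_value hxX hyX hG.continuousOn ⟨h1.le, h2.le⟩
      exact hne p hp hp0
    · exfalso
      obtain ⟨p, hp, hp0⟩ := hX.intermediate_value hyX hxX hG.continuousOn ⟨h2.le, h1.le⟩
      exact hne p hp hp0
    · exact mul_pos h1 h2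
  rw [hGx, hGy] at hpos
  have h3 := mul_pos hpos (mul_pos hxx hyy)
  have h4 : (b ⬝ᵥ x) * (c ⬝ᵥ x) / (x ⬝ᵥ x) * ((b ⬝ᵥ y) * (c ⬝ᵥ y) / (y ⬝ᵥ y)) *
      ((x ⬝ᵥ x) * (y ⬝ᵥ y)) = ((b ⬝ᵥ x) * (c ⬝ᵥ x)) * ((b ⬝ᵥ y) * (c ⬝ᵥ y)) := by
    field_simp
  rw [h4] at h3
  exact h3

/-- if the segment from `x` to `y` avoids `0` and projects into `X`, then the points lie in the
same connected component of `X` -/
theorem segment_component {X : Set P2} {x y : V3} (hx : x ≠ 0) (hy : y ≠ 0)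
    (h : ∀ t ∈ Icc (0 : ℝ) 1, ∃ hz : (1 - t) • x + t • y ≠ 0,
      Projectivization.mk ℝ ((1 - t) • x + t • y) hz ∈ X) :
    Projectivization.mk ℝ y hy ∈ connectedComponentIn X (Projectivization.mk ℝ x hx) := by
  have hz : ∀ t : Icc (0 : ℝ) 1, (1 - t.1) • x + t.1 • y ≠ 0 := fun t => (h t.1 t.2).1
  let u : Icc (0 : ℝ) 1 → P2 := fun t => Projectivization.mk ℝ ((1 - t.1) • x + t.1 • y) (hz t)
  have hu : Continuous u := by
    have h1 : Continuous (fun t : Icc (0 : ℝ) 1 =>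
        (⟨(1 - t.1) • x + t.1 • y, hz t⟩ : {v : Fin 3 → ℝ // v ≠ 0})) := by
      apply Continuous.subtype_mk
      fun_prop
    exact continuous_mk.comp h1
  have hpre : IsPreconnected (range u) := isPreconnected_range hu
  have hsub : range u ⊆ X := by
    rintro _ ⟨t, rfl⟩
    exact (h t.1 t.2).2
  have h0 : Projectivization.mk ℝ x hx ∈ range u := by
    refine ⟨⟨0, by simp⟩, ?_⟩
    show Projectivization.mk ℝ ((1 - (0 : ℝ)) • x + (0 : ℝ) • y) _ = Projectivization.mk ℝ x hx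
    rw [Projectivization.mk_eq_mk_iff']
    exact ⟨1, by simp⟩
  have h1 : Projectivization.mk ℝ y hy ∈ range u := by
    refine ⟨⟨1, by simp⟩, ?_⟩
    show Projectivization.mk ℝ ((1 - (1 : ℝ)) • x + (1 : ℝ) • y) _ = Projectivization.mk ℝ y hy
    rw [Projectivization.mk_eq_mk_iff']
    exact ⟨1, by simp⟩
  exact hpre.subset_connectedComponentIn h0 hsub h1

end Pool.Agent.Arr
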